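import Mathlib

-- part MP_b5e119_nt.Sieve
section

/-! A small sieve: integers `y` such that neither `y` nor `2y+t` has an odd prime factor `≤ m`. -/

namespace Pool.Agent.MP_b5e119_nt

open Finset

def Good (m : ℕ) (t y : ℤ) : Prop :=
  ∀ p : ℕ, p.Prime → 3 ≤ p → p ≤ m → ¬ (p : ℤ) ∣ y ∧ ¬ (p : ℤ) ∣ 2 * y + t

open Classical in
noncomputable def cnt (m : ℕ) (t y0 : ℤ) (L : ℕ) : ℕ :=
  ((range L).filter (fun j : ℕ => Good m t (y0 + j))).card

def Lev (m : ℕ) (ρ : ℝ) : Prop :=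
  ∃ P c : ℕ, 0 < P ∧ (∀ p : ℕ, p.Prime → 3 ≤ p → p ≤ m → p ∣ P) ∧
    (∀ p : ℕ, p.Prime → p ∣ P → p ≤ m) ∧ ρ * P ≤ m * c ∧ ∀ t y0 : ℤ, c ≤ cnt m t y0 P

lemma cnt_mono (m : ℕ) (t y0 : ℤ) {L L' : ℕ} (h : L ≤ L') : cnt m t y0 L ≤ cnt m t y0 L' := by
  classical
  unfold cnt
  apply card_le_card
  exact filter_subset_filter _ (range_mono h)

lemma cnt_succ_of_good (m : ℕ) (t y0 : ℤ) (L : ℕ) :
    cnt m t y0 (L + 1) ≤ cnt m t y0 L + 1 := by
  classical
  unfold cnt
  rw [range_add_one, filter_insert]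
  split_ifs
  · exact card_insert_le _ _
  · omega

lemma cnt_succ_of_not_good (m : ℕ) (t y0 : ℤ) (L : ℕ) (h : ¬ Good m t (y0 + L)) :
    cnt m t y0 (L + 1) = cnt m t y0 L := by
  classical
  unfold cnt
  rw [range_add_one, filter_insert, if_neg h]

lemma cnt_add (m : ℕ) (t y0 : ℤ) (L M : ℕ) :
    cnt m t y0 (L + M) = cnt m t y0 L + cnt m t (y0 + L) M := by
  classical
  unfold cnt
  simp only [card_filter]
  rw [sum_range_add]
  congr 1
  apply sum_congr rfl
  intro j _
  have : y0 + ((L + j : ℕ) : ℤ) = y0 + L + j := by push_cast; ring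
  simp only [this]

lemma cnt_mul (m : ℕ) (t : ℤ) (P c : ℕ) (h : ∀ y0 : ℤ, c ≤ cnt m t y0 P) (q : ℕ) (y0 : ℤ) :
    q * c ≤ cnt m t y0 (q * P) := by
  induction q with
  | zero => simp
  | succ q ih =>
    rw [Nat.succ_mul, Nat.succ_mul, cnt_add]
    have := h (y0 + ((q * P : ℕ) : ℤ))
    omega

lemma lev_one : Lev 1 1 := by
  refine ⟨1, 1, by norm_num, ?_, ?_, by norm_num, ?_⟩
  · intro p _ h3 h1; omega
  · intro p hp h; exact absurd (Nat.dvd_one.mp h) hp.one_lt.ne'
  · intro t y0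
    classical
    unfold cnt
    have : Good 1 t (y0 + (0 : ℕ)) := by
      intro p _ h3 h1; omega
    rw [range_one, filter_singleton, if_pos this]
    simp

lemma good_step_of_not_prime {m : ℕ} (hm : Odd m) (hp : ¬ (m + 2).Prime) (t y : ℤ)
    (h : Good m t y) : Good (m + 2) t y := by
  intro p pp h3 hle
  rcases Nat.lt_or_ge m p with hlt | hge
  · exfalso
    have : p = m + 1 ∨ p = m + 2 := by omega
    rcases this with rfl | rfl
    · have h2 : 2 ∣ m + 1 := by
        obtain ⟨k, rfl⟩ := hm; exact ⟨k + 1, by ring⟩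
      have := (Nat.prime_dvd_prime_iff_eq Nat.prime_two pp).mp h2
      omega
    · exact hp pp
  · exact h p pp h3 hge

lemma lev_step_not_prime {m : ℕ} {ρ : ℝ} (hm : Odd m) (hp : ¬ (m + 2).Prime) (h : Lev m ρ) :
    Lev (m + 2) (ρ * ((m + 2) / m)) := by
  classical
  obtain ⟨P, c, hP, h1, h2, h3, h4⟩ := h
  have hm0 : (0 : ℝ) < m := by
    obtain ⟨k, rfl⟩ := hm; positivity
  refine ⟨P, c, hP, ?_, ?_, ?_, ?_⟩
  · intro p pp h3 hle
    rcases Nat.lt_or_ge m p with hlt | hge
    · exfalso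
      have : p = m + 1 ∨ p = m + 2 := by omega
      rcases this with rfl | rfl
      · have h2 : 2 ∣ m + 1 := by
          obtain ⟨k, rfl⟩ := hm; exact ⟨k + 1, by ring⟩
        have := (Nat.prime_dvd_prime_iff_eq Nat.prime_two pp).mp h2
        omega
      · exact hp pp
    · exact h1 p pp h3 hge
  · intro p pp hd; have := h2 p pp hd; omega
  · have : ρ * ((m + 2) / m) * P = (ρ * P) * ((m + 2) / m) := by ring
    rw [this]
    calc (ρ * P) * ((m + 2) / m) ≤ (m * c) * ((m + 2) / m) := by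
          apply mul_le_mul_of_nonneg_right h3; positivity
      _ = ((m + 2 : ℕ) : ℝ) * c := by push_cast; field_simp
  · intro t y0
    refine (h4 t y0).trans ?_
    unfold cnt
    apply card_le_card
    intro j hj
    rw [mem_filter] at hj ⊢
    exact ⟨hj.1, good_step_of_not_prime hm hp _ _ hj.2⟩

lemma card_hit_le_one {p : ℕ} (pp : p.Prime) (u v : ℤ) (hv : ¬ (p : ℤ) ∣ v) :
    ((range p).filter (fun k : ℕ => (p : ℤ) ∣ u + k * v)).card ≤ 1 := by
  rw [card_le_one]
  intro a ha b hb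
  rw [mem_filter, mem_range] at ha hb
  have hd : (p : ℤ) ∣ ((a : ℤ) - b) * v := by
    have := dvd_sub ha.2 hb.2
    have e : u + a * v - (u + b * v) = ((a : ℤ) - b) * v := by ring
    rwa [e] at this
  have hpi : Prime (p : ℤ) := Nat.prime_iff_prime_int.mp pp
  rcases hpi.dvd_or_dvd hd with h | h
  · obtain ⟨e, he⟩ := h
    have h1 : e < 1 := by
      by_contra hc
      push Not at hc
      have : (p : ℤ) * 1 ≤ p * e := mul_le_mul_of_nonneg_left hc (by positivity)
      omega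
    have h2 : -1 < e := by
      by_contra hc
      push Not at hc
      have : (p : ℤ) * e ≤ p * (-1) := mul_le_mul_of_nonneg_left hc (by positivity)
      omega
    have : e = 0 := by omega
    subst this
    omega
  · exact absurd h hv

lemma lev_step_prime {m : ℕ} {ρ : ℝ} (hm : Odd m) (hp : (m + 2).Prime) (h : Lev m ρ) :
    Lev (m + 2) ρ := by
  classical
  obtain ⟨P, c, hP, h1, h2, h3, h4⟩ := h
  set p := m + 2 with hpdef
  have hm1 : 1 ≤ m := by obtain ⟨k, rfl⟩ := hm; omega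
  have hnd : ¬ (p : ℤ) ∣ (P : ℤ) := by
    intro hd
    have := h2 p hp (Int.natCast_dvd_natCast.mp hd)
    omega
  have hnd2 : ¬ (p : ℤ) ∣ 2 * (P : ℤ) := by
    intro hd
    rcases (Nat.prime_iff_prime_int.mp hp).dvd_or_dvd hd with h | h
    · have : p ∣ 2 := by exact_mod_cast h
      have := Nat.le_of_dvd (by norm_num) this
      omega
    · exact hnd h
  refine ⟨P * p, c * m, by positivity, ?_, ?_, ?_, ?_⟩
  · intro q qp q3 hle
    rcases Nat.lt_or_ge m q with hlt | hge
    · have : q = m + 1 ∨ q = m + 2 := by omega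
      rcases this with rfl | rfl
      · exfalso
        have h2 : 2 ∣ m + 1 := by
          obtain ⟨k, rfl⟩ := hm; exact ⟨k + 1, by ring⟩
        have := (Nat.prime_dvd_prime_iff_eq Nat.prime_two qp).mp h2
        omega
      · exact Dvd.intro_left _ rfl
    · exact Dvd.dvd.mul_right (h1 q qp q3 hge) _
  · intro q qp hd
    rcases (Nat.Prime.dvd_mul qp).mp hd with h | h
    · have := h2 q qp h; omega
    · exact Nat.le_of_dvd hp.pos h
  · push_cast
    have hp0 : (0 : ℝ) ≤ p := by positivity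
    calc ρ * (P * p) = (ρ * P) * p := by ring
      _ ≤ (m * c) * p := mul_le_mul_of_nonneg_right h3 hp0
      _ = p * (c * m) := by ring
  · intro t y0
    have hc := h4 t y0
    unfold cnt at hc ⊢
    set A := (range P).filter (fun j : ℕ => Good m t (y0 + j)) with hA
    let K : ℕ → Finset ℕ := fun j => (range p).filter (fun k : ℕ =>
      ¬ (p : ℤ) ∣ (y0 + j) + k * P ∧ ¬ (p : ℤ) ∣ (2 * (y0 + j) + t) + k * (2 * P))
    have hK : ∀ j, m ≤ (K j).card := by
      intro j
      have e1 := card_hit_le_one hp (y0 + j) P hnd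
      have e2 := card_hit_le_one hp (2 * (y0 + j) + t) (2 * P) hnd2
      have hsub : range p ⊆ K j ∪ ((range p).filter (fun k : ℕ => (p : ℤ) ∣ (y0 + j) + k * P) ∪
          (range p).filter (fun k : ℕ => (p : ℤ) ∣ (2 * (y0 + j) + t) + k * (2 * P))) := by
        intro k hk
        simp only [K, mem_union, mem_filter]
        tauto
      have := card_le_card hsub
      have h5 := card_union_le (K j) ((range p).filter (fun k : ℕ => (p : ℤ) ∣ (y0 + j) + k * P) ∪
          (range p).filter (fun k : ℕ => (p : ℤ) ∣ (2 * (y0 + j) + t) + k * (2 * P)))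
      have h6 := card_union_le ((range p).filter (fun k : ℕ => (p : ℤ) ∣ (y0 + j) + k * P))
          ((range p).filter (fun k : ℕ => (p : ℤ) ∣ (2 * (y0 + j) + t) + k * (2 * P)))
      rw [card_range] at this
      omega
    have hcard : c * m ≤ (A.sigma K).card := by
      rw [card_sigma]
      calc c * m ≤ A.card * m := Nat.mul_le_mul_right _ hc
        _ = ∑ _j ∈ A, m := by simp
        _ ≤ _ := sum_le_sum (fun j _ => hK j)
    refine hcard.trans ?_
    apply card_le_card_of_injOn (fun x : (Σ _ : ℕ, ℕ) => x.1 + x.2 * P)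
    · intro x hx
      simp only [coe_sigma, Set.mem_sigma_iff, mem_coe, hA, K, mem_filter, mem_range] at hx
      obtain ⟨⟨hx1, hx2⟩, hx3, hx4, hx5⟩ := hx
      simp only [coe_filter, mem_range, Set.mem_ofPred_eq]
      constructor
      · have : x.2 + 1 ≤ p := hx3
        calc x.1 + x.2 * P < P + x.2 * P := by omega
          _ = (x.2 + 1) * P := by ring
          _ ≤ p * P := Nat.mul_le_mul_right _ this
          _ = P * p := by ring
      · intro q qp q3 hle
        have e1 : y0 + ((x.1 + x.2 * P : ℕ) : ℤ) = (y0 + x.1) + x.2 * P := by push_cast; ring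
        have e2 : 2 * ((y0 + x.1) + x.2 * (P : ℤ)) + t = (2 * (y0 + x.1) + t) + x.2 * (2 * P) := by
          ring
        rw [e1, e2]
        rcases Nat.lt_or_ge m q with hlt | hge
        · have : q = m + 1 ∨ q = m + 2 := by omega
          rcases this with rfl | rfl
          · exfalso
            have h2 : 2 ∣ m + 1 := by
              obtain ⟨k, rfl⟩ := hm; exact ⟨k + 1, by ring⟩
            have := (Nat.prime_dvd_prime_iff_eq Nat.prime_two qp).mp h2
            omega
          · exact ⟨hx4, hx5⟩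
        · have hq : (q : ℤ) ∣ (P : ℤ) := Int.natCast_dvd_natCast.mpr (h1 q qp q3 hge)
          obtain ⟨g1, g2⟩ := hx2 q qp q3 hge
          constructor
          · intro hd
            exact g1 ((dvd_add_left (Dvd.dvd.mul_left hq _)).mp hd)
          · intro hd
            exact g2 ((dvd_add_left (Dvd.dvd.mul_left (Dvd.dvd.mul_left hq 2) _)).mp hd)
    · intro x hx y hy hxy
      simp only [coe_sigma, Set.mem_sigma_iff, mem_coe, hA, mem_filter, mem_range] at hx hy
      have hx1 := hx.1.1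
      have hy1 := hy.1.1
      simp only at hxy
      have m1 : (x.1 + x.2 * P) % P = x.1 := by
        rw [Nat.add_mul_mod_self_right, Nat.mod_eq_of_lt hx1]
      have m2 : (y.1 + y.2 * P) % P = y.1 := by
        rw [Nat.add_mul_mod_self_right, Nat.mod_eq_of_lt hy1]
      have e1 : x.1 = y.1 := by rw [← m1, ← m2, hxy]
      have e2 : x.2 = y.2 := by
        rw [e1] at hxy
        exact Nat.eq_of_mul_eq_mul_right hP (Nat.add_left_cancel hxy)
      cases x; cases y; simp only at e1 e2; subst e1; subst e2; rfl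

lemma Lev.mono {m : ℕ} {ρ ρ' : ℝ} (h : Lev m ρ) (hle : ρ' ≤ ρ) : Lev m ρ' := by
  obtain ⟨P, c, hP, h1, h2, h3, h4⟩ := h
  exact ⟨P, c, hP, h1, h2, (mul_le_mul_of_nonneg_right hle (by positivity)).trans h3, h4⟩

lemma lev_step {m : ℕ} {ρ : ℝ} (hρ : 0 ≤ ρ) (hm : Odd m) (h : Lev m ρ) : Lev (m + 2) ρ := by
  by_cases hp : (m + 2).Prime
  · exact lev_step_prime hm hp h
  · refine (lev_step_not_prime hm hp h).mono ?_
    have hm0 : (0 : ℝ) < m := by
      obtain ⟨k, rfl⟩ := hm; positivity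
    have : (1 : ℝ) ≤ (m + 2) / m := by rw [le_div_iff₀ hm0]; linarith
    nlinarith

lemma lev_cube (j : ℕ) : ∃ ρ : ℝ, 0 ≤ ρ ∧ Lev (6 * j + 3) ρ ∧ (6 * (j : ℝ) + 7) / 7 ≤ ρ ^ 3 := by
  induction j with
  | zero => exact ⟨1, by norm_num, lev_step (by norm_num) odd_one lev_one, by norm_num⟩
  | succ j ih =>
    obtain ⟨ρ, h0, hl, hc⟩ := ih
    have l1 := lev_step h0 (⟨3 * j + 1, by ring⟩ : Odd (6 * j + 3)) hl
    have l2 := lev_step h0 (⟨3 * j + 2, by ring⟩ : Odd (6 * j + 3 + 2)) l1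
    have hnp : ¬ (6 * j + 3 + 2 + 2 + 2).Prime := by
      intro hp
      have h3 : 3 ∣ 6 * j + 3 + 2 + 2 + 2 := ⟨2 * j + 3, by ring⟩
      have := (Nat.prime_dvd_prime_iff_eq Nat.prime_three hp).mp h3
      omega
    have l3 := lev_step_not_prime (⟨3 * j + 3, by ring⟩ : Odd (6 * j + 3 + 2 + 2)) hnp l2
    have e : 6 * (j + 1) + 3 = 6 * j + 3 + 2 + 2 + 2 := by ring
    refine ⟨_, ?_, e ▸ l3, ?_⟩
    · positivity
    · push_cast
      set x : ℝ := 6 * (j : ℝ) + 7 with hx
      have hx0 : 0 < x := by positivity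
      have e1 : (6 * (j : ℝ) + 3 + 2 + 2 + 2) / (6 * j + 3 + 2 + 2) = 1 + 2 / x := by
        have : (6 * (j : ℝ) + 3 + 2 + 2) = x := by rw [hx]; ring
        rw [this]; field_simp
      rw [e1, mul_pow]
      have b : 1 + 6 / x ≤ (1 + 2 / x) ^ 3 := by
        have := one_add_mul_le_pow (a := 2 / x) (by
          have : 0 ≤ 2 / x := by positivity
          linarith) 3
        have e2 : ((3 : ℕ) : ℝ) * (2 / x) = 6 / x := by push_cast; ring
        rwa [e2] at this
      calc (6 * ((j : ℝ) + 1) + 7) / 7 = (x / 7) * (1 + 6 / x) := by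
            rw [hx]; field_simp; ring
        _ ≤ ρ ^ 3 * (1 + 2 / x) ^ 3 := by
            apply mul_le_mul hc b (by positivity) (by positivity)

/-- The sieve statement used in the main argument. -/
lemma sieve_exists (R : ℝ) : ∃ m P c : ℕ, 0 < P ∧ R * P ≤ m * c ∧
    ∀ (t y0 : ℤ) (q : ℕ), q * c ≤ cnt m t y0 (q * P) := by
  obtain ⟨j, hj⟩ := exists_nat_ge (7 * |R| ^ 3)
  obtain ⟨ρ, h0, ⟨P, c, hP, -, -, h3, h4⟩, hc⟩ := lev_cube j
  refine ⟨6 * j + 3, P, c, hP, ?_, fun t y0 q => cnt_mul _ t P c (h4 t) q y0⟩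
  have h5 : |R| ^ 3 ≤ ρ ^ 3 := by
    have : (0 : ℝ) ≤ j := by positivity
    linarith
  have h6 : |R| ≤ ρ := le_of_pow_le_pow_left₀ (by norm_num) h0 h5
  have h7 : R ≤ ρ := (le_abs_self R).trans h6
  exact (mul_le_mul_of_nonneg_right h7 (by positivity)).trans h3

end Pool.Agent.MP_b5e119_nt

end

-- part MP_b5e119_nt.Dyn
section

namespace Pool.Agent.MP_b5e119_nt

/-- second argument of the gcd -/
def bb (N j : ℕ) : ℤ := (N : ℤ) - (-1 : ℤ) ^ j * ((N : ℤ) - (j : ℤ))

lemma bb_even (N j : ℕ) (h : Even j) : bb N j = j := by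
  unfold bb; rw [h.neg_one_pow]; ring

lemma bb_odd (N j : ℕ) (h : Odd j) : bb N j = 2 * N - j := by
  unfold bb; rw [h.neg_one_pow]; ring

/-- The invariant after step `n`: `D` is the total drop, `k` the time of the last jump. -/
def Inv (m N : ℕ) (a : ℕ → ℤ) (n : ℕ) : Prop :=
  ∃ k D : ℕ, k ≤ n ∧ a n = (N : ℤ) - D - n - 1 ∧ Odd ((N : ℤ) - D) ∧ 0 ≤ a n ∧
    2 * m * cnt m (1 - 6 * N) N ((k - 2 * D) / 2) ≤ k ∧
    ∀ j : ℕ, k < j → j ≤ n → Int.gcd ((N : ℤ) - D - j) (bb N j) = 1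

lemma cnt_zero (m : ℕ) (t y0 : ℤ) : cnt m t y0 0 = 0 := by
  classical
  unfold cnt; simp

lemma inv_base (m N : ℕ) (hN : 3 ≤ N) (a : ℕ → ℤ) (h1 : a 1 = (N : ℤ) - 2)
    (hrec : ∀ n : ℕ, 2 ≤ n → a n = a (n - 1) - ((Int.gcd (a (n - 1)) (bb N n) : ℕ) : ℤ)) :
    Inv m N a 2 := by
  have h2 := hrec 2 le_rfl
  rw [show 2 - 1 = 1 from rfl, h1, bb_even N 2 (by norm_num)] at h2
  rcases Nat.even_or_odd N with ⟨r, hr⟩ | ⟨r, hr⟩
  · have hg : Int.gcd ((N : ℤ) - 2) ((2 : ℕ) : ℤ) = 2 := by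
      have : (N : ℤ) - 2 = 2 * (r - 1) := by rw [hr]; push_cast; ring
      rw [this]
      have e : ((2 : ℕ) : ℤ) = 2 * 1 := by norm_num
      rw [e, Int.gcd_mul_left]; simp
    rw [hg] at h2
    refine ⟨2, 1, le_rfl, by rw [h2]; push_cast; ring, ⟨r - 1, by rw [hr]; push_cast; ring⟩,
      by rw [h2]; omega, ?_, ?_⟩
    · simp [cnt_zero]
    · intro j h1 h2; omega
  · have hg : Int.gcd ((N : ℤ) - 2) ((2 : ℕ) : ℤ) = 1 := by
      rw [← Int.isCoprime_iff_gcd_eq_one]
      exact ⟨1, -(r - 1 : ℤ), by rw [hr]; push_cast; ring⟩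
    rw [hg] at h2
    refine ⟨0, 0, by norm_num, by rw [h2]; push_cast; ring, ⟨r, by rw [hr]; push_cast; ring⟩,
      by rw [h2]; omega, ?_, ?_⟩
    · simp [cnt_zero]
    · intro j h1 h2
      have : j = 1 ∨ j = 2 := by omega
      rcases this with rfl | rfl
      · rw [bb_odd N 1 odd_one, ← Int.isCoprime_iff_gcd_eq_one]
        exact ⟨-2, 1, by push_cast; ring⟩
      · rw [bb_even N 2 (by norm_num)]
        simpa using hg

lemma inv_step (m N : ℕ) (a : ℕ → ℤ) (n : ℕ) (hn : 2 ≤ n)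
    (hrec : ∀ n : ℕ, 2 ≤ n → a n = a (n - 1) - ((Int.gcd (a (n - 1)) (bb N n) : ℕ) : ℤ))
    (hne : a n ≠ 0) (h : Inv m N a n) : Inv m N a (n + 1) := by
  obtain ⟨k, D, hk, ha, hodd, hnn, hc, hcop⟩ := h
  have hr := hrec (n + 1) (by omega)
  rw [Nat.add_sub_cancel] at hr
  set d := Int.gcd (a n) (bb N (n + 1)) with hd
  have hpos : 0 < a n := lt_of_le_of_ne hnn (Ne.symm hne)
  have hd1 : (d : ℤ) ∣ a n := Int.gcd_dvd_left _ _
  have hd2 : (d : ℤ) ∣ bb N (n + 1) := Int.gcd_dvd_right _ _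
  have hdle : (d : ℤ) ≤ a n := Int.le_of_dvd hpos hd1
  have hd0 : d ≠ 0 := by
    intro h0; rw [h0] at hd1; simp at hd1; exact hne hd1
  have han : a n = (N : ℤ) - D - ((n + 1 : ℕ) : ℤ) := by rw [ha]; push_cast; ring
  by_cases hd1' : d = 1
  · refine ⟨k, D, by omega, by rw [hr, hd1', ha]; push_cast; ring, hodd, by rw [hr]; omega, hc, ?_⟩
    intro j hj1 hj2
    rcases Nat.lt_or_ge n j with hlt | hge
    · have : j = n + 1 := by omega
      subst this
      rw [← han, ← hd]; exact hd1'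
    · exact hcop j hj1 hge
  · -- a jump
    have hdodd : Odd d := by
      by_contra hev
      rw [Nat.not_odd_iff_even] at hev
      have h2d : (2 : ℤ) ∣ (d : ℤ) := by exact_mod_cast hev.two_dvd
      have e1 := h2d.trans hd1
      have e2 := h2d.trans hd2
      obtain ⟨s, hs⟩ := hodd
      rcases Nat.even_or_odd (n + 1) with hp | hp
      · rw [bb_even N _ hp] at e2; omega
      · rw [bb_odd N _ hp] at e2
        obtain ⟨u, hu⟩ := hp
        omega
    have hd3 : 3 ≤ d := by obtain ⟨u, hu⟩ := hdodd; omega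
    -- the waiting time is at most 2d
    have hw : n + 1 ≤ k + 2 * d := by
      by_contra hlt
      push Not at hlt
      set j := n + 1 - 2 * d with hj
      have hjz : (j : ℤ) = (n + 1 : ℕ) - 2 * d := by omega
      have := hcop j (by omega) (by omega)
      have f1 : (d : ℤ) ∣ (N : ℤ) - D - j := by
        have : (N : ℤ) - D - j = a n + 2 * d := by rw [han, hjz]; ring
        rw [this]; exact dvd_add hd1 (Dvd.intro_left _ rfl)
      have f2 : (d : ℤ) ∣ bb N j := by
        rcases Nat.even_or_odd (n + 1) with hp | hp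
        · have hpj : Even j := by
            obtain ⟨u, hu⟩ := hp; exact ⟨u - d, by omega⟩
          rw [bb_even N _ hp] at hd2
          rw [bb_even N _ hpj, hjz]
          exact dvd_sub hd2 (Dvd.intro_left _ rfl)
        · have hpj : Odd j := by
            obtain ⟨u, hu⟩ := hp; exact ⟨u - d, by omega⟩
          rw [bb_odd N _ hp] at hd2
          rw [bb_odd N _ hpj, hjz]
          have : 2 * (N : ℤ) - (((n + 1 : ℕ) : ℤ) - 2 * d) = 2 * N - ((n + 1 : ℕ) : ℤ) + 2 * d := by
            ring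
          rw [this]
          exact dvd_add hd2 (Dvd.intro_left _ rfl)
      have f3 : d ∣ Int.gcd ((N : ℤ) - D - j) (bb N j) := Int.dvd_gcd f1 f2
      rw [this] at f3
      exact hd1' (Nat.dvd_one.mp f3)
    refine ⟨n + 1, D + d - 1, le_rfl, ?_, ?_, by rw [hr]; omega, ?_, ?_⟩
    · rw [hr, ha]; omega
    · obtain ⟨s, hs⟩ := hodd
      obtain ⟨u, hu⟩ := hdodd
      exact ⟨s - u, by omega⟩
    · set U := (k - 2 * D) / 2 with hU
      set U' := (n + 1 - 2 * (D + d - 1)) / 2 with hU'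
      rcases Nat.lt_or_ge U U' with hlt | hge
      · have hUU : U' = U + 1 := by omega
        rw [hUU]
        by_cases hg : Good m (1 - 6 * N) ((N : ℤ) + U)
        · have hcs := cnt_succ_of_good m (1 - 6 * N) N U
          have hdm : m < d := by
            by_contra hle
            push Not at hle
            have pp : (Nat.minFac d).Prime := Nat.minFac_prime hd1'
            set p := Nat.minFac d with hp
            have hpd : p ∣ d := Nat.minFac_dvd d
            have hp2 : p ≠ 2 := by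
              intro h2; rw [h2] at hpd; obtain ⟨u, hu⟩ := hdodd; omega
            have hp3 : 3 ≤ p := by have := pp.two_le; omega
            have hple : p ≤ m := (Nat.le_of_dvd (by omega) hpd).trans hle
            obtain ⟨g1, g2⟩ := hg p pp hp3 hple
            have hpz : (p : ℤ) ∣ (d : ℤ) := Int.natCast_dvd_natCast.mpr hpd
            rcases Nat.even_or_odd (n + 1) with hpar | hpar
            · rw [bb_even N _ hpar] at hd2
              apply g1
              have e : 2 * ((N : ℤ) + U) = 2 * a n + 3 * ((n + 1 : ℕ) : ℤ) - 2 * d := by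
                obtain ⟨u, hu⟩ := hpar
                rw [han]; omega
              have f : (p : ℤ) ∣ 2 * ((N : ℤ) + U) := by
                rw [e]
                exact dvd_sub (dvd_add (Dvd.dvd.mul_left (hpz.trans hd1) _)
                  (Dvd.dvd.mul_left (hpz.trans hd2) _)) (Dvd.dvd.mul_left hpz _)
              rcases (Nat.prime_iff_prime_int.mp pp).dvd_or_dvd f with h | h
              · exfalso
                have : p ∣ 2 := by exact_mod_cast h
                have := Nat.le_of_dvd (by norm_num) this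
                omega
              · exact h
            · rw [bb_odd N _ hpar] at hd2
              apply g2
              have e : 2 * ((N : ℤ) + U) + (1 - 6 * N) =
                  2 * a n - 3 * (2 * N - ((n + 1 : ℕ) : ℤ)) - 2 * d := by
                obtain ⟨u, hu⟩ := hpar
                rw [han]; omega
              rw [e]
              exact dvd_sub (dvd_sub (Dvd.dvd.mul_left (hpz.trans hd1) _)
                  (Dvd.dvd.mul_left (hpz.trans hd2) _)) (Dvd.dvd.mul_left hpz _)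
          have hwl : k + 2 * d ≤ n + 2 := by omega
          calc 2 * m * cnt m (1 - 6 * N) N (U + 1) ≤ 2 * m * (cnt m (1 - 6 * N) N U + 1) :=
                Nat.mul_le_mul_left _ hcs
            _ = 2 * m * cnt m (1 - 6 * N) N U + 2 * m := by ring
            _ ≤ n + 1 := by omega
        · rw [cnt_succ_of_not_good m _ _ U hg]; omega
      · calc 2 * m * cnt m (1 - 6 * N) N U' ≤ 2 * m * cnt m (1 - 6 * N) N U :=
              Nat.mul_le_mul_left _ (cnt_mono _ _ _ hge)
          _ ≤ n + 1 := by omega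
    · intro j h1 h2; omega

lemma inv_all (m N : ℕ) (hN : 3 ≤ N) (a : ℕ → ℤ) (h1 : a 1 = (N : ℤ) - 2)
    (hrec : ∀ n : ℕ, 2 ≤ n → a n = a (n - 1) - ((Int.gcd (a (n - 1)) (bb N n) : ℕ) : ℤ))
    (g : ℕ) (hg : IsLeast {n : ℕ | 2 ≤ n ∧ a n = 0} g) :
    ∀ n, 2 ≤ n → n ≤ g → Inv m N a n := by
  intro n hn
  induction n, hn using Nat.le_induction with
  | base => intro _; exact inv_base m N hN a h1 hrec
  | succ n hn ih =>
    intro hle
    refine inv_step m N a n hn hrec ?_ (ih (by omega))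
    intro h0
    have := hg.2 (show n ∈ {n : ℕ | 2 ≤ n ∧ a n = 0} from ⟨hn, h0⟩)
    omega

/-- End of the process: if the pair is not a prime pair, the last jump was recent. -/
lemma end_game (m N : ℕ) (hN : 3 ≤ N) (a : ℕ → ℤ) (h1 : a 1 = (N : ℤ) - 2)
    (hrec : ∀ n : ℕ, 2 ≤ n → a n = a (n - 1) - ((Int.gcd (a (n - 1)) (bb N n) : ℕ) : ℤ))
    (g : ℕ) (hg : IsLeast {n : ℕ | 2 ≤ n ∧ a n = 0} g)
    (hbad : ¬ (Nat.Prime (g + 1) ∧ Nat.Prime (2 * N - g - 1))) :
    ∃ k p : ℕ, g + 1 ≤ N ∧ k ≤ g ∧ p ^ 2 ≤ 2 * N ∧ g + 1 ≤ k + 2 * p ∧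
      2 * m * cnt m (1 - 6 * N) N ((k - 2 * (N - g - 1)) / 2) ≤ k := by
  obtain ⟨k, D, hk, ha, hodd, -, hc, hcop⟩ := inv_all m N hN a h1 hrec g hg g hg.1.1 le_rfl
  have hg2 : 2 ≤ g := hg.1.1
  rw [hg.1.2] at ha
  have hD : D = N - g - 1 := by omega
  have hgN : g + 1 ≤ N := by omega
  have hS : (N : ℤ) - D = g + 1 := by omega
  have hgev : Even g := by
    obtain ⟨s, hs⟩ := hodd
    exact ⟨s.toNat, by omega⟩
  by_cases hp1 : (g + 1).Prime
  · have hp2 : ¬ (2 * N - g - 1).Prime := fun h => hbad ⟨hp1, h⟩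
    set M := 2 * N - g - 1 with hM
    have hM1 : M ≠ 1 := by omega
    have hsq := Nat.minFac_sq_le_self (show 0 < M by omega) hp2
    have pp := Nat.minFac_prime hM1
    set p := Nat.minFac M with hp
    have hpd : p ∣ M := Nat.minFac_dvd M
    refine ⟨k, p, hgN, hk, by omega, ?_, hD ▸ hc⟩
    by_contra hlt
    push Not at hlt
    have hp1 := pp.one_lt
    set j := g + 1 - 2 * p with hj
    have hjodd : Odd j := by
      obtain ⟨u, hu⟩ := hgev; exact ⟨u - p, by omega⟩
    have := hcop j (by omega) (by omega)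
    have f1 : (p : ℤ) ∣ (N : ℤ) - D - j := ⟨2, by omega⟩
    have f2 : (p : ℤ) ∣ bb N j := by
      rw [bb_odd N j hjodd]
      have : 2 * (N : ℤ) - j = (M : ℤ) + 2 * p := by omega
      rw [this]
      exact dvd_add (Int.natCast_dvd_natCast.mpr hpd) (Dvd.intro_left _ rfl)
    have f3 : p ∣ Int.gcd ((N : ℤ) - D - j) (bb N j) := Int.dvd_gcd f1 f2
    rw [this] at f3
    have := Nat.dvd_one.mp f3
    omega
  · set M := g + 1 with hM
    have hM1 : M ≠ 1 := by omega
    have hsq := Nat.minFac_sq_le_self (show 0 < M by omega) hp1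
    have pp := Nat.minFac_prime hM1
    set p := Nat.minFac M with hp
    have hpd : p ∣ M := Nat.minFac_dvd M
    refine ⟨k, p, hgN, hk, by omega, ?_, hD ▸ hc⟩
    by_contra hlt
    push Not at hlt
    have hp1 := pp.one_lt
    have hpodd : Odd p := by
      rcases pp.eq_two_or_odd' with h2 | h2
      · exfalso; rw [h2] at hpd; obtain ⟨u, hu⟩ := hgev; omega
      · exact h2
    set j := g + 1 - p with hj
    have hjev : Even j := by
      obtain ⟨u, hu⟩ := hgev; obtain ⟨v, hv⟩ := hpodd; exact ⟨u - v, by omega⟩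
    have := hcop j (by omega) (by omega)
    have f1 : (p : ℤ) ∣ (N : ℤ) - D - j := ⟨1, by omega⟩
    have f2 : (p : ℤ) ∣ bb N j := by
      rw [bb_even N j hjev]
      have : (j : ℤ) = (M : ℤ) - p := by omega
      rw [this]
      exact dvd_sub (Int.natCast_dvd_natCast.mpr hpd) dvd_rfl
    have f3 : p ∣ Int.gcd ((N : ℤ) - D - j) (bb N j) := Int.dvd_gcd f1 f2
    rw [this] at f3
    have := Nat.dvd_one.mp f3
    omega

theorem main (ε : ℝ) (hε : 0 < ε) : ∃ N₀ : ℕ, ∀ N : ℕ, N₀ ≤ N → ∀ a : ℕ → ℤ,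
    a 1 = (N : ℤ) - 2 →
    (∀ n : ℕ, 2 ≤ n → a n = a (n - 1) - ((Int.gcd (a (n - 1)) (bb N n) : ℕ) : ℤ)) →
    ∀ g : ℕ, IsLeast {n : ℕ | 2 ≤ n ∧ a n = 0} g → (2 / 3 + ε) * N ≤ (g : ℝ) →
    Nat.Prime (g + 1) ∧ Nat.Prime (2 * N - g - 1) := by
  obtain ⟨m, P, c, hP, hR, hs⟩ := sieve_exists (1 / ε)
  obtain ⟨N₁, hN₁⟩ := exists_nat_ge (8 / ε ^ 2)
  obtain ⟨N₂, hN₂⟩ := exists_nat_ge ((2 * P + 2) / ε)
  refine ⟨max 3 (max N₁ N₂), ?_⟩
  intro N hN a h1 hrec g hg hbig
  have hN3 : 3 ≤ N := le_trans (le_max_left _ _) hN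
  have hNa : (8 / ε ^ 2 : ℝ) ≤ N := hN₁.trans (by
    exact_mod_cast le_trans (le_trans (le_max_left _ _) (le_max_right _ _)) hN)
  have hNb : ((2 * P + 2) / ε : ℝ) ≤ N := hN₂.trans (by
    exact_mod_cast le_trans (le_trans (le_max_right _ _) (le_max_right _ _)) hN)
  by_contra hbad
  obtain ⟨k, p, hgN, hk, hp, hkp, hc⟩ := end_game m N hN3 a h1 hrec g hg hbad
  set U := (k - 2 * (N - g - 1)) / 2 with hU
  have hN0 : (0 : ℝ) < N := by positivity
  -- 2p ≤ ε N
  have hpe : 2 * (p : ℝ) ≤ ε * N := by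
    have hp' : (p : ℝ) ^ 2 ≤ 2 * N := by exact_mod_cast hp
    rw [div_le_iff₀ (by positivity)] at hNa
    have : (2 * (p : ℝ)) ^ 2 ≤ (ε * N) ^ 2 := by nlinarith
    exact le_of_pow_le_pow_left₀ (by norm_num) (by positivity) this
  -- 2U + 1 ≥ k - 2(N-g-1) ≥ 3g + 3 - 2p - 2N
  have hU1 : 3 * g + 3 ≤ 2 * U + 1 + 2 * p + 2 * N := by omega
  have hU2 : (3 : ℝ) * g + 3 ≤ 2 * U + 1 + 2 * p + 2 * N := by exact_mod_cast hU1
  have hU3 : ε * N + 1 ≤ (U : ℝ) := by nlinarith
  set q := U / P with hq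
  have hqP : q * P ≤ U := Nat.div_mul_le_self U P
  have hqP' : U < q * P + P := by
    have := Nat.lt_div_mul_add (a := U) hP
    omega
  have hqc : q * c ≤ cnt m (1 - 6 * N) N U := (hs _ _ q).trans (cnt_mono _ _ _ hqP)
  have hfin : 2 * m * (q * c) ≤ N := by
    calc 2 * m * (q * c) ≤ 2 * m * cnt m (1 - 6 * N) N U := Nat.mul_le_mul_left _ hqc
      _ ≤ k := hc
      _ ≤ N := by omega
  have hfin' : 2 * (q : ℝ) * (m * c) ≤ N := by
    have : ((2 * m * (q * c) : ℕ) : ℝ) ≤ N := by exact_mod_cast hfin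
    push_cast at this
    linarith
  have hq2 : (U : ℝ) < q * P + P := by exact_mod_cast hqP'
  have hq3 : 2 * (q : ℝ) * (1 / ε * P) ≤ N :=
    (mul_le_mul_of_nonneg_left hR (by positivity)).trans hfin'
  have hq4 : 2 * ((q : ℝ) * P) ≤ ε * N := by
    have e : 2 * (q : ℝ) * (1 / ε * P) = 2 * (q * P) / ε := by ring
    rw [e, div_le_iff₀ hε] at hq3
    linarith
  rw [div_le_iff₀ hε] at hNb
  nlinarith

end Pool.Agent.MP_b5e119_nt

end
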