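import Mathlib

-- part MP_b5e119_nt.H44.Split
section

namespace Pool.Agent.MP_b5e119_nt.H44

open Real

/-- The potential of a gap. -/
noncomputable def phi (x y δ : ℝ) : ℝ :=
  1 / (x * y) + (1 / 8) * (max 0 (δ * exp (max x y) - 1) / (max x y) ^ 2)

lemma phi_comm (x y δ : ℝ) : phi x y δ = phi y x δ := by
  unfold phi; rw [max_comm x y, mul_comm x y]

lemma exp_ge_sq (v : ℝ) (hv : 0 ≤ v) : (1 + v / 2) ^ 2 ≤ exp v := by
  have h := Real.add_one_le_exp (v / 2)
  have e : exp v = exp (v / 2) ^ 2 := by rw [← Real.exp_nat_mul]; congr 1; push_cast; ring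
  rw [e]
  apply pow_le_pow_left₀ (by linarith) (by linarith)

lemma core (x y v t : ℝ) (hx : 4 ≤ x) (hxy : x ≤ y) (hv : 0 ≤ v) (ht : 0 ≤ t)
    (hK : 64 * exp (v - x) ≤ t * exp v) :
    1 / (x * y) + (1 / 8) * (max 0 (t - 1) / y ^ 2) ≤
      1 / (x * (y + v)) + 1 / ((y + v) * y) + (1 / 8) * (max 0 (t * exp v - 3) / (y + v) ^ 2) := by
  have hy : 4 ≤ y := hx.trans hxy
  have hx0 : 0 < x := by linarith
  have hy0 : 0 < y := by linarith
  have hz0 : 0 < y + v := by linarith
  have hE1 : (y + v) ^ 2 ≤ exp v * y ^ 2 := by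
    have h1 := exp_ge_sq v hv
    have h2 : y + v ≤ (1 + v / 2) * y := by nlinarith
    calc (y + v) ^ 2 ≤ ((1 + v / 2) * y) ^ 2 := pow_le_pow_left₀ hz0.le h2 2
      _ = (1 + v / 2) ^ 2 * y ^ 2 := by ring
      _ ≤ exp v * y ^ 2 := by gcongr
  have hgain : 1 / (x * (y + v)) + 1 / ((y + v) * y) - 1 / (x * y) = (x - v) / (x * y * (y + v)) := by
    field_simp; ring
  have he1 : 1 ≤ exp v := Real.one_le_exp hv
  -- comparison of the second terms
  have hcmp : ∀ A B : ℝ, 0 ≤ A → A * exp v ≤ B → A / y ^ 2 ≤ B / (y + v) ^ 2 := by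
    intro A B hA hAB
    rw [div_le_div_iff₀ (by positivity) (by positivity)]
    calc A * (y + v) ^ 2 ≤ A * (exp v * y ^ 2) := by gcongr
      _ = (A * exp v) * y ^ 2 := by ring
      _ ≤ B * y ^ 2 := by gcongr
  rcases le_or_gt v 2 with hv2 | hv2
  · have hdef : max 0 (t - 1) / y ^ 2 ≤ 2 / y ^ 2 + max 0 (t * exp v - 3) / (y + v) ^ 2 := by
      have h1 : max 0 (t - 1) ≤ 2 + max 0 (t - 3) := by
        apply max_le
        · have := le_max_left 0 (t - 3); linarith
        · have := le_max_right 0 (t - 3); linarith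
      have h2 : max 0 (t - 3) / y ^ 2 ≤ max 0 (t * exp v - 3) / (y + v) ^ 2 := by
        apply hcmp _ _ (le_max_left _ _)
        rcases le_total 0 (t - 3) with h | h
        · rw [max_eq_right h]
          have := le_max_right 0 (t * exp v - 3)
          nlinarith
        · rw [max_eq_left h, zero_mul]; exact le_max_left _ _
      calc max 0 (t - 1) / y ^ 2 ≤ (2 + max 0 (t - 3)) / y ^ 2 := by gcongr
        _ = 2 / y ^ 2 + max 0 (t - 3) / y ^ 2 := by ring
        _ ≤ _ := by linarith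
    have hg : (1 / 8) * (2 / y ^ 2) ≤ (x - v) / (x * y * (y + v)) := by
      rw [show (1 / 8) * (2 / y ^ 2) = 1 / (4 * y ^ 2) by field_simp; ring,
        div_le_div_iff₀ (by positivity) (by positivity)]
      have h1 : x ≤ 2 * (x - v) := by linarith
      have h2 : y + v ≤ 2 * y := by linarith
      calc 1 * (x * y * (y + v)) = x * y * (y + v) := by ring
        _ ≤ (2 * (x - v)) * y * (2 * y) := by
          have h3 : 0 ≤ 2 * (x - v) := by linarith
          gcongr
        _ = (x - v) * (4 * y ^ 2) := by ring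
    linarith
  · have he3 : 3 ≤ exp v := by have := Real.add_one_le_exp v; linarith
    rcases le_or_gt v x with hvx | hvx
    · have h2 : max 0 (t - 1) / y ^ 2 ≤ max 0 (t * exp v - 3) / (y + v) ^ 2 := by
        apply hcmp _ _ (le_max_left _ _)
        rcases le_total 0 (t - 1) with h | h
        · rw [max_eq_right h]
          have := le_max_right 0 (t * exp v - 3)
          nlinarith
        · rw [max_eq_left h, zero_mul]; exact le_max_left _ _
      have hg : 0 ≤ (x - v) / (x * y * (y + v)) := by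
        apply div_nonneg (by linarith) (by positivity)
      linarith
    · set u := v - x with hu
      have hu0 : 0 < u := by linarith
      have hE2 : 2 * (y + v) ^ 2 ≤ exp v * y ^ 2 := by
        have h1 := exp_ge_sq (v / 2) (by linarith)
        have h0 := Real.add_one_le_exp (v / 2)
        have e : exp v = exp (v / 2) * exp (v / 2) := by rw [← Real.exp_add]; congr 1; ring
        have h2 : y + v ≤ (1 + v / 2 / 2) * y := by nlinarith
        have h3 : (2 : ℝ) ≤ exp (v / 2) := by linarith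
        calc 2 * (y + v) ^ 2 ≤ 2 * ((1 + v / 2 / 2) * y) ^ 2 := by gcongr
          _ = 2 * (1 + v / 2 / 2) ^ 2 * y ^ 2 := by ring
          _ ≤ exp (v / 2) * exp (v / 2) * y ^ 2 := by gcongr
          _ = exp v * y ^ 2 := by rw [← e]
      have h1 : max 0 (t - 1) / y ^ 2 ≤ (t * exp v / 2) / (y + v) ^ 2 := by
        have : max 0 (t - 1) ≤ t := max_le ht (by linarith)
        rw [div_le_div_iff₀ (by positivity) (by positivity)]
        calc max 0 (t - 1) * (y + v) ^ 2 ≤ t * (y + v) ^ 2 := by gcongr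
          _ = t / 2 * (2 * (y + v) ^ 2) := by ring
          _ ≤ t / 2 * (exp v * y ^ 2) := by gcongr
          _ = t * exp v / 2 * y ^ 2 := by ring
      have heu : 1 + u + u ^ 2 / 4 ≤ exp u := by have := exp_ge_sq u hu0.le; nlinarith
      have h2 : (t * exp v / 2 + 16 * exp u) / (y + v) ^ 2 ≤
          max 0 (t * exp v - 3) / (y + v) ^ 2 := by
        have := le_max_right 0 (t * exp v - 3)
        have h4 : t * exp v / 2 + 16 * exp u ≤ max 0 (t * exp v - 3) := by nlinarith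
        gcongr
      have h3 : u / (x * y * (y + v)) ≤ (1 / 8) * (16 * exp u / (y + v) ^ 2) := by
        rw [show (1 / 8) * (16 * exp u / (y + v) ^ 2) = 2 * exp u / (y + v) ^ 2 by ring,
          div_le_div_iff₀ (by positivity) (by positivity)]
        have h5 : u * (y + v) ≤ 2 * exp u * (x * y) := by
          have hxy16 : 16 ≤ x * y := by nlinarith
          have hxy1 : x + y ≤ x * y := by nlinarith
          have : y + v = x + y + u := by rw [hu]; ring
          rw [this]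
          have h6 : u * (x + y) ≤ u * (x * y) := by gcongr
          have h7 : u * u ≤ u ^ 2 / 4 * (x * y) := by nlinarith [sq_nonneg u]
          have h8 : (u + u ^ 2 / 4) * (x * y) ≤ 2 * exp u * (x * y) := by
            gcongr; nlinarith [sq_nonneg u]
          nlinarith
        calc u * (y + v) ^ 2 = (u * (y + v)) * (y + v) := by ring
          _ ≤ (2 * exp u * (x * y)) * (y + v) := by gcongr
          _ = 2 * exp u * (x * y * (y + v)) := by ring
      have h4 : (x - v) / (x * y * (y + v)) = -(u / (x * y * (y + v))) := by rw [hu]; ring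
      have h5 : (t * exp v / 2 + 16 * exp u) / (y + v) ^ 2 =
          (t * exp v / 2) / (y + v) ^ 2 + 16 * exp u / (y + v) ^ 2 := by ring
      linarith

lemma split_aux (x y z δ₁ δ₂ : ℝ) (hx : 4 ≤ x) (hxy : x ≤ y) (hyz : y ≤ z)
    (h1 : 0 ≤ δ₁) (h2 : 0 ≤ δ₂) (hK : 64 * exp (-(x + y)) ≤ δ₁ + δ₂ + exp (-z)) :
    phi x y (δ₁ + δ₂ + exp (-z)) ≤ phi x z δ₁ + phi z y δ₂ := by
  unfold phi
  rw [max_eq_right hxy, max_eq_right (hxy.trans hyz), max_eq_left hyz]
  set δ := δ₁ + δ₂ + exp (-z) with hδ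
  have hδ0 : 0 ≤ δ := by have := exp_pos (-z); linarith
  have hc := core x y (z - y) (δ * exp y) hx hxy (by linarith) (by positivity) (by
    have e1 : exp (z - y - x) = exp (-(x + y)) * exp z := by rw [← exp_add]; congr 1; ring
    have e2 : δ * exp y * exp (z - y) = δ * exp z := by
      rw [mul_assoc, ← exp_add]; congr 2; ring
    rw [e1, e2, ← mul_assoc]
    gcongr)
  have e2 : δ * exp y * exp (z - y) = δ * exp z := by
    rw [mul_assoc, ← exp_add]; congr 2; ring
  rw [e2, show y + (z - y) = z by ring] at hc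
  have e3 : δ * exp z = δ₁ * exp z + δ₂ * exp z + 1 := by
    rw [hδ, add_mul, add_mul, ← exp_add]; simp
  have h4 : max 0 (δ * exp z - 3) ≤ max 0 (δ₁ * exp z - 1) + max 0 (δ₂ * exp z - 1) := by
    apply max_le
    · exact add_nonneg (le_max_left _ _) (le_max_left _ _)
    · have := le_max_right 0 (δ₁ * exp z - 1)
      have := le_max_right 0 (δ₂ * exp z - 1)
      linarith
  have h5 : max 0 (δ * exp z - 3) / z ^ 2 ≤
      max 0 (δ₁ * exp z - 1) / z ^ 2 + max 0 (δ₂ * exp z - 1) / z ^ 2 := by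
    rw [← add_div]; gcongr
  linarith

lemma split (x y z δ₁ δ₂ : ℝ) (hx : 4 ≤ x) (hy : 4 ≤ y) (hxz : x ≤ z) (hyz : y ≤ z)
    (h1 : 0 ≤ δ₁) (h2 : 0 ≤ δ₂) (hK : 64 * exp (-(x + y)) ≤ δ₁ + δ₂ + exp (-z)) :
    phi x y (δ₁ + δ₂ + exp (-z)) ≤ phi x z δ₁ + phi z y δ₂ := by
  rcases le_total x y with h | h
  · exact split_aux x y z δ₁ δ₂ hx h hyz h1 h2 hK
  · have := split_aux y x z δ₂ δ₁ hy h hxz h2 h1 (by rw [add_comm y x, add_comm δ₂ δ₁]; exact hK)
    rw [phi_comm x y, phi_comm x z, phi_comm z y, add_comm δ₁ δ₂]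
    linarith

end Pool.Agent.MP_b5e119_nt.H44

end

-- part MP_b5e119_nt.H44.Comb
section

namespace Pool.Agent.MP_b5e119_nt.H44

open Real Finset

/-- Abstract hypotheses on the jump sequence. -/
structure Hyp (Y : ℝ) (T : ℕ) (d : ℕ → ℝ) (J : ℕ → Prop) : Prop where
  hY : 0 < Y
  hT : 1 ≤ T
  nn : ∀ l, 0 ≤ d l
  small : ∀ l ≤ T, ¬ J l → d l ≤ T
  big : ∀ l ≤ T, J l → (T : ℝ) < d l
  ub : ∀ l ≤ T, J l → d l ≤ Y / 3
  pair : ∀ i j, i < j → j ≤ T → J i → J j → d i * d j ≤ Y * ∑ l ∈ Ioo i j, d l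

noncomputable def xx (Y : ℝ) (d : ℕ → ℝ) (l : ℕ) : ℝ := Real.log (64 * Y / d l)

noncomputable def del (Y : ℝ) (d : ℕ → ℝ) (i j : ℕ) : ℝ := (∑ l ∈ Ioo i j, d l) / (64 * Y)

open Classical in
noncomputable def Psi (Y L : ℝ) (d : ℕ → ℝ) (J : ℕ → Prop) (i j : ℕ) : ℝ :=
  (2 / L) * (1 / xx Y d i + 1 / xx Y d j) +
    (4 / L) * ∑ l ∈ (Ioo i j).filter J, 1 / xx Y d l + ((j : ℝ) - i) / (2 * L ^ 2)

variable {Y : ℝ} {T : ℕ} {d : ℕ → ℝ} {J : ℕ → Prop}

lemma Hyp.dpos (h : Hyp Y T d J) {l : ℕ} (hl : l ≤ T) (hJ : J l) : 0 < d l := by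
  have := h.big l hl hJ
  have : (0 : ℝ) ≤ T := Nat.cast_nonneg _
  linarith

lemma Hyp.exp_xx (h : Hyp Y T d J) {l : ℕ} (hl : l ≤ T) (hJ : J l) :
    exp (xx Y d l) = 64 * Y / d l := by
  unfold xx
  have := h.dpos hl hJ
  have := h.hY
  rw [exp_log (by positivity)]

lemma Hyp.exp_neg_xx (h : Hyp Y T d J) {l : ℕ} (hl : l ≤ T) (hJ : J l) :
    exp (-xx Y d l) = d l / (64 * Y) := by
  rw [exp_neg, h.exp_xx hl hJ, inv_div]

lemma Hyp.four_le (h : Hyp Y T d J) {l : ℕ} (hl : l ≤ T) (hJ : J l) : 4 ≤ xx Y d l := by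
  have h1 := h.exp_xx hl hJ
  have h2 := h.dpos hl hJ
  have h3 := h.ub l hl hJ
  have h4 : (64 : ℝ) ≤ 64 * Y / d l := by
    rw [le_div_iff₀ h2]; have := h.hY; nlinarith
  have h5 : exp 4 ≤ 64 := by
    have e : exp 4 = exp 1 ^ 4 := by rw [← Real.exp_nat_mul]; norm_num
    have := Real.exp_one_lt_d9
    rw [e]
    calc exp 1 ^ 4 ≤ (2.7182818286 : ℝ) ^ 4 := by gcongr
      _ ≤ 64 := by norm_num
  exact exp_le_exp.mp (by linarith)

lemma Ioo_split {i l j : ℕ} (hil : i < l) (hlj : l < j) :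
    Ioo i j = insert l (Ioo i l ∪ Ioo l j) := by
  ext m; simp only [mem_Ioo, mem_insert, mem_union]; omega

lemma sum_Ioo_split (f : ℕ → ℝ) {i l j : ℕ} (hil : i < l) (hlj : l < j) :
    ∑ m ∈ Ioo i j, f m = ∑ m ∈ Ioo i l, f m + ∑ m ∈ Ioo l j, f m + f l := by
  rw [Ioo_split hil hlj, sum_insert (by simp), sum_union]
  · ring
  · rw [disjoint_left]; intro m h1 h2; simp only [mem_Ioo] at h1 h2; omega

lemma Psi_add (L : ℝ) {i l j : ℕ} (hil : i < l) (hlj : l < j) (hJ : J l) :
    Psi Y L d J i j = Psi Y L d J i l + Psi Y L d J l j := by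
  classical
  unfold Psi
  simp only [sum_filter]
  rw [sum_Ioo_split _ hil hlj, if_pos hJ]
  ring

lemma Hyp.pair' (h : Hyp Y T d J) {i j : ℕ} (hij : i < j) (hj : j ≤ T) (hJi : J i) (hJj : J j) :
    64 * exp (-(xx Y d i + xx Y d j)) ≤ del Y d i j := by
  rw [neg_add, exp_add, h.exp_neg_xx (by omega) hJi, h.exp_neg_xx hj hJj]
  unfold del
  have := h.pair i j hij hj hJi hJj
  have hY := h.hY
  rw [le_div_iff₀ (by positivity)]
  have e : 64 * (d i / (64 * Y) * (d j / (64 * Y))) * (64 * Y) = d i * d j / Y := by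
    field_simp
  rw [e, div_le_iff₀ hY]; linarith

lemma Hyp.leaf (h : Hyp Y T d J) {L : ℝ} (hL : 0 < L) (hLY : exp L ≤ Y / T ^ 2) {i j : ℕ}
    (hij : i < j) (hj : j ≤ T) (hJi : J i) (hJj : J j) (hno : ∀ l ∈ Ioo i j, ¬ J l) :
    phi (xx Y d i) (xx Y d j) (del Y d i j) ≤ Psi Y L d J i j := by
  classical
  have hY := h.hY
  have hT : (1 : ℝ) ≤ T := by exact_mod_cast h.hT
  have hs : ∑ l ∈ Ioo i j, d l ≤ ((j : ℝ) - i) * T := by
    calc ∑ l ∈ Ioo i j, d l ≤ ∑ l ∈ Ioo i j, (T : ℝ) := by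
          apply sum_le_sum; intro l hl
          exact h.small l (by have := (mem_Ioo.mp hl).2; omega) (hno l hl)
      _ = ((j - i - 1 : ℕ) : ℝ) * T := by rw [sum_const, Nat.card_Ioo, nsmul_eq_mul]
      _ ≤ ((j : ℝ) - i) * T := by
          gcongr
          have : ((j - i - 1 : ℕ) : ℝ) ≤ ((j - i : ℕ) : ℝ) := by exact_mod_cast Nat.sub_le _ _
          rw [Nat.cast_sub hij.le] at this; exact this
  have hji : (j : ℝ) - i ≤ T := by
    have : (j : ℝ) ≤ T := by exact_mod_cast hj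
    have : (0 : ℝ) ≤ i := Nat.cast_nonneg _
    linarith
  have hji0 : (0 : ℝ) ≤ (j : ℝ) - i := by
    have : (i : ℝ) ≤ j := by exact_mod_cast hij.le
    linarith
  set x := xx Y d i with hx
  set y := xx Y d j with hy
  have hx4 : 4 ≤ x := h.four_le (by omega) hJi
  have hy4 : 4 ≤ y := h.four_le hj hJj
  have hdi := h.dpos (show i ≤ T by omega) hJi
  have hdj := h.dpos hj hJj
  have hsum : L ≤ x + y := by
    apply exp_le_exp.mp
    rw [exp_add, h.exp_xx (by omega) hJi, h.exp_xx hj hJj]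
    refine hLY.trans ?_
    have h1 := h.pair i j hij hj hJi hJj
    have h2 : d i * d j ≤ Y * T ^ 2 := by
      refine h1.trans ?_
      gcongr
      calc _ ≤ ((j : ℝ) - i) * T := hs
        _ ≤ T * T := by gcongr
        _ = T ^ 2 := by ring
    rw [div_mul_div_comm, div_le_div_iff₀ (by positivity) (by positivity)]
    calc Y * (d i * d j) ≤ Y * (Y * T ^ 2) := by gcongr
      _ ≤ 64 * Y * (64 * Y) * T ^ 2 := by nlinarith [mul_pos hY hY, mul_pos (mul_pos hY hY) (pow_pos (show (0:ℝ) < T by linarith) 2)]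
  have hM : L / 2 ≤ max x y := by
    have := le_max_left x y; have := le_max_right x y; linarith
  have hexpM : exp (max x y) ≤ 64 * Y / T := by
    rcases le_total x y with hh | hh
    · rw [max_eq_right hh, hy, h.exp_xx hj hJj]
      gcongr; exact (h.big j hj hJj).le
    · rw [max_eq_left hh, hx, h.exp_xx (by omega) hJi]
      gcongr; exact (h.big i (by omega) hJi).le
  have hdel : del Y d i j * exp (max x y) ≤ (j : ℝ) - i := by
    unfold del
    calc (∑ l ∈ Ioo i j, d l) / (64 * Y) * exp (max x y)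
        ≤ (((j : ℝ) - i) * T) / (64 * Y) * (64 * Y / T) := by gcongr
      _ = (j : ℝ) - i := by field_simp
  have h1 : 1 / (x * y) ≤ (2 / L) * (1 / x + 1 / y) := by
    have e : (2 / L) * (1 / x + 1 / y) = (2 * (x + y) / L) / (x * y) := by field_simp; ring
    rw [e]
    gcongr
    rw [le_div_iff₀ hL]; linarith
  have h2 : (1 / 8) * (max 0 (del Y d i j * exp (max x y) - 1) / (max x y) ^ 2) ≤
      ((j : ℝ) - i) / (2 * L ^ 2) := by
    have h3 : max 0 (del Y d i j * exp (max x y) - 1) ≤ (j : ℝ) - i := max_le hji0 (by linarith)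
    calc (1 / 8) * (max 0 (del Y d i j * exp (max x y) - 1) / (max x y) ^ 2)
        ≤ (1 / 8) * (((j : ℝ) - i) / (L / 2) ^ 2) := by gcongr
      _ = ((j : ℝ) - i) / (2 * L ^ 2) := by field_simp; ring
  have h3 : 0 ≤ (4 / L) * ∑ l ∈ (Ioo i j).filter J, 1 / xx Y d l := by
    rw [filter_false_of_mem hno]; simp
  unfold phi Psi
  linarith

lemma Hyp.gap (h : Hyp Y T d J) {L : ℝ} (hL : 0 < L) (hLY : exp L ≤ Y / T ^ 2) :
    ∀ k i j : ℕ, j - i ≤ k → i < j → j ≤ T → J i → J j →
      (∀ l ∈ Ioo i j, J l → xx Y d i ≤ xx Y d l ∧ xx Y d j ≤ xx Y d l) →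
      phi (xx Y d i) (xx Y d j) (del Y d i j) ≤ Psi Y L d J i j := by
  classical
  intro k
  induction k with
  | zero => intro i j h1 h2; omega
  | succ k ih =>
    intro i j hk hij hj hJi hJj hall
    by_cases hne : ((Ioo i j).filter J).Nonempty
    · obtain ⟨l, hl, hmin⟩ := exists_min_image _ (xx Y d) hne
      obtain ⟨hl1, hJl⟩ := mem_filter.mp hl
      obtain ⟨hil, hlj⟩ := mem_Ioo.mp hl1
      have e : del Y d i j = del Y d i l + del Y d l j + exp (-xx Y d l) := by
        rw [h.exp_neg_xx (by omega) hJl]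
        unfold del
        rw [sum_Ioo_split _ hil hlj]; ring
      have hd : ∀ a b, 0 ≤ del Y d a b := fun a b => by
        unfold del
        have := h.hY
        exact div_nonneg (sum_nonneg fun m _ => h.nn m) (by positivity)
      have hs := split (xx Y d i) (xx Y d j) (xx Y d l) (del Y d i l) (del Y d l j)
        (h.four_le (by omega) hJi) (h.four_le hj hJj) (hall l hl1 hJl).1 (hall l hl1 hJl).2
        (hd _ _) (hd _ _) (by rw [← e]; exact h.pair' hij hj hJi hJj)
      rw [← e] at hs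
      have i1 := ih i l (by omega) hil (by omega) hJi hJl (fun m hm hJm => by
        have hm' : m ∈ Ioo i j := by simp only [mem_Ioo] at hm ⊢; omega
        exact ⟨(hall m hm' hJm).1, hmin m (mem_filter.mpr ⟨hm', hJm⟩)⟩)
      have i2 := ih l j (by omega) hlj hj hJl hJj (fun m hm hJm => by
        have hm' : m ∈ Ioo i j := by simp only [mem_Ioo] at hm ⊢; omega
        exact ⟨hmin m (mem_filter.mpr ⟨hm', hJm⟩), (hall m hm' hJm).2⟩)
      rw [Psi_add L hil hlj hJl]
      linarith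
    · apply h.leaf hL hLY hij hj hJi hJj
      intro l hl hJl
      exact hne ⟨l, mem_filter.mpr ⟨hl, hJl⟩⟩

open Classical in
lemma Hyp.count (h : Hyp Y T d J) {L : ℝ} (hL : 0 < L) (hLY : exp L ≤ Y / T ^ 2) (lam : ℝ) :
    ∀ k i j : ℕ, j - i ≤ k → i < j → j ≤ T → (J i ∧ xx Y d i ≤ lam) → (J j ∧ xx Y d j ≤ lam) →
      (((Ioc i j).filter (fun l => J l ∧ xx Y d l ≤ lam)).card : ℝ) / lam ^ 2 ≤
        Psi Y L d J i j := by
  intro k
  induction k with
  | zero => intro i j h1 h2; omega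
  | succ k ih =>
    intro i j hk hij hj hAi hAj
    by_cases hne : ∃ l ∈ Ioo i j, J l ∧ xx Y d l ≤ lam
    · obtain ⟨l, hl, hAl⟩ := hne
      obtain ⟨hil, hlj⟩ := mem_Ioo.mp hl
      have i1 := ih i l (by omega) hil (by omega) hAi hAl
      have i2 := ih l j (by omega) hlj hj hAl hAj
      rw [Psi_add L hil hlj hAl.1, ← Ioc_union_Ioc_eq_Ioc hil.le hlj.le, filter_union,
        card_union_of_disjoint (disjoint_filter_filter (Ioc_disjoint_Ioc_of_le le_rfl))]
      push_cast
      rw [add_div]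
      linarith
    · push Not at hne
      have hc : (Ioc i j).filter (fun l => J l ∧ xx Y d l ≤ lam) = {j} := by
        ext m
        simp only [mem_filter, mem_Ioc, mem_singleton]
        constructor
        · rintro ⟨⟨h1, h2⟩, h3⟩
          by_contra hm
          have := hne m (mem_Ioo.mpr ⟨h1, by omega⟩) h3.1
          linarith [h3.2]
        · rintro rfl; exact ⟨⟨hij, le_rfl⟩, hAj⟩
      rw [hc, card_singleton]
      have hg := h.gap hL hLY _ i j le_rfl hij hj hAi.1 hAj.1 (fun l hl hJl => by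
        have := hne l hl hJl
        exact ⟨by linarith [hAi.2], by linarith [hAj.2]⟩)
      refine le_trans ?_ hg
      have hx4 := h.four_le (show i ≤ T by omega) hAi.1
      have hy4 := h.four_le hj hAj.1
      have h1 : ((1 : ℕ) : ℝ) / lam ^ 2 ≤ 1 / (xx Y d i * xx Y d j) := by
        rw [Nat.cast_one]
        apply one_div_le_one_div_of_le (by positivity)
        rw [sq]
        have := hAi.2
        have := hAj.2
        gcongr
        linarith
      unfold phi
      have h2 : 0 ≤ (1 / 8) * (max 0 (del Y d i j * exp (max (xx Y d i) (xx Y d j)) - 1) /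
          (max (xx Y d i) (xx Y d j)) ^ 2) := by
        have := le_max_left 0 (del Y d i j * exp (max (xx Y d i) (xx Y d j)) - 1)
        positivity
      linarith

end Pool.Agent.MP_b5e119_nt.H44

end

-- part MP_b5e119_nt.H44.Theta
section

namespace Pool.Agent.MP_b5e119_nt.H44

open Real Finset

variable {Y : ℝ} {T : ℕ} {d : ℕ → ℝ} {J : ℕ → Prop}

open Classical in
noncomputable def Th (Y L : ℝ) (T : ℕ) (d : ℕ → ℝ) (J : ℕ → Prop) : ℝ :=
  (4 / L) * ∑ l ∈ (range (T + 1)).filter J, 1 / xx Y d l + (T : ℝ) / (2 * L ^ 2)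

lemma Hyp.Th_nonneg (h : Hyp Y T d J) {L : ℝ} (hL : 0 < L) : 0 ≤ Th Y L T d J := by
  classical
  unfold Th
  have : 0 ≤ ∑ l ∈ (range (T + 1)).filter J, 1 / xx Y d l := by
    apply sum_nonneg; intro l hl
    obtain ⟨h1, h2⟩ := mem_filter.mp hl
    have := h.four_le (show l ≤ T by have := mem_range.mp h1; omega) h2
    positivity
  positivity

lemma Hyp.Psi_le (h : Hyp Y T d J) {L : ℝ} (hL : 0 < L) {i j : ℕ} (hij : i < j) (hj : j ≤ T)
    (hJi : J i) (hJj : J j) : Psi Y L d J i j ≤ Th Y L T d J := by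
  classical
  unfold Psi Th
  have hx := h.four_le (show i ≤ T by omega) hJi
  have hy := h.four_le hj hJj
  have h1 : 1 / xx Y d i + 1 / xx Y d j + ∑ l ∈ (Ioo i j).filter J, 1 / xx Y d l ≤
      ∑ l ∈ (range (T + 1)).filter J, 1 / xx Y d l := by
    have e : 1 / xx Y d i + 1 / xx Y d j + ∑ l ∈ (Ioo i j).filter J, 1 / xx Y d l =
        ∑ l ∈ insert i (insert j ((Ioo i j).filter J)), 1 / xx Y d l := by
      rw [sum_insert (by simp; omega), sum_insert (by simp)]; ring
    rw [e]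
    apply sum_le_sum_of_subset_of_nonneg
    · intro m hm
      simp only [mem_insert, mem_filter, mem_Ioo, mem_range] at hm ⊢
      rcases hm with rfl | rfl | hm
      · exact ⟨by omega, hJi⟩
      · exact ⟨by omega, hJj⟩
      · exact ⟨by omega, hm.2⟩
    · intro l hl _
      obtain ⟨h1, h2⟩ := mem_filter.mp hl
      have := h.four_le (show l ≤ T by have := mem_range.mp h1; omega) h2
      positivity
  have h2 : ((j : ℝ) - i) / (2 * L ^ 2) ≤ (T : ℝ) / (2 * L ^ 2) := by
    gcongr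
    have : (j : ℝ) ≤ T := by exact_mod_cast hj
    have : (0 : ℝ) ≤ i := Nat.cast_nonneg _
    linarith
  have h3 : (2 / L) * (1 / xx Y d i + 1 / xx Y d j) ≤ (4 / L) * (1 / xx Y d i + 1 / xx Y d j) := by
    gcongr; norm_num
  have h4 := mul_le_mul_of_nonneg_left h1 (show 0 ≤ 4 / L by positivity)
  linarith

open Classical in
lemma Hyp.card_le (h : Hyp Y T d J) {L : ℝ} (hL : 0 < L) (hLY : exp L ≤ Y / T ^ 2) {lam : ℝ}
    (hlam : 0 < lam) :
    (((range (T + 1)).filter (fun l => J l ∧ xx Y d l ≤ lam)).card : ℝ) ≤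
      1 + Th Y L T d J * lam ^ 2 := by
  set A := (range (T + 1)).filter (fun l => J l ∧ xx Y d l ≤ lam) with hA
  have hTh := h.Th_nonneg hL
  by_cases hne : A.Nonempty
  · set i := A.min' hne with hi
    set j := A.max' hne with hj
    have hiA : i ∈ A := A.min'_mem hne
    have hjA : j ∈ A := A.max'_mem hne
    have hsub : A ⊆ insert i ((Ioc i j).filter (fun l => J l ∧ xx Y d l ≤ lam)) := by
      intro m hm
      have h1 := A.min'_le m hm
      have h2 := A.le_max' m hm
      simp only [mem_insert, mem_filter, mem_Ioc]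
      by_cases hmi : m = i
      · exact Or.inl hmi
      · exact Or.inr ⟨⟨by omega, h2⟩, (mem_filter.mp hm).2⟩
    have hc : (A.card : ℝ) ≤ 1 + ((Ioc i j).filter (fun l => J l ∧ xx Y d l ≤ lam)).card := by
      have := (card_le_card hsub).trans (card_insert_le _ _)
      have : (A.card : ℝ) ≤ ((((Ioc i j).filter (fun l => J l ∧ xx Y d l ≤ lam)).card + 1 : ℕ) : ℝ) := by
        exact_mod_cast this
      push_cast at this; linarith
    rcases Nat.lt_or_ge i j with hij | hij
    · have hjT : j ≤ T := by have := mem_range.mp (mem_filter.mp hjA).1; omega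
      have h1 := h.count hL hLY lam _ i j le_rfl hij hjT (mem_filter.mp hiA).2 (mem_filter.mp hjA).2
      have h2 := h.Psi_le hL hij hjT (mem_filter.mp hiA).2.1 (mem_filter.mp hjA).2.1
      rw [div_le_iff₀ (by positivity)] at h1
      have h3 : Psi Y L d J i j * lam ^ 2 ≤ Th Y L T d J * lam ^ 2 := by gcongr
      linarith
    · rw [Ioc_eq_empty (by omega)] at hc
      simp at hc
      have : 0 ≤ Th Y L T d J * lam ^ 2 := by positivity
      have hc' : (A.card : ℝ) ≤ 1 := by exact_mod_cast hc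
      linarith
  · rw [not_nonempty_iff_eq_empty] at hne
    rw [hne]; simp; positivity

lemma inv_layer (x : ℝ) (hx : 1 ≤ x) (R : ℕ) :
    1 / x ≤ 1 / ((R : ℝ) + 1) +
      ∑ m ∈ range R, if x ≤ (m : ℝ) + 2 then 1 / (((m : ℝ) + 1) * (m + 2)) else 0 := by
  induction R with
  | zero => simp; exact inv_le_one_of_one_le₀ hx
  | succ R ih =>
    rw [sum_range_succ]
    split_ifs with hh
    · have e : 1 / ((R : ℝ) + 1) = 1 / (((R + 1 : ℕ) : ℝ) + 1) + 1 / (((R : ℝ) + 1) * (R + 2)) := by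
        push_cast; field_simp; ring
      linarith
    · push Not at hh
      have h1 : 1 / x ≤ 1 / (((R + 1 : ℕ) : ℝ) + 1) := by
        apply one_div_le_one_div_of_le (by positivity); push_cast; linarith
      have h2 : 0 ≤ ∑ m ∈ range R, if x ≤ (m : ℝ) + 2 then 1 / (((m : ℝ) + 1) * (m + 2)) else 0 := by
        apply sum_nonneg; intro m _; split_ifs <;> positivity
      linarith

lemma exp_layer (x : ℝ) (hx : 0 ≤ x) (R : ℕ) :
    exp (-x) ≤ (1 / 2) ^ R +
      ∑ m ∈ range R, if x ≤ (m : ℝ) + 1 then (1 / 2 : ℝ) ^ (m + 1) else 0 := by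
  induction R with
  | zero => simp; exact hx
  | succ R ih =>
    rw [sum_range_succ]
    split_ifs with hh
    · have e : (1 / 2 : ℝ) ^ R = (1 / 2) ^ (R + 1) + (1 / 2) ^ (R + 1) := by ring
      linarith
    · push Not at hh
      have h1 : exp (-x) ≤ (1 / 2) ^ (R + 1) := by
        have h3 : exp (-1) ≤ 1 / 2 := by
          rw [exp_neg, ← one_div]
          apply one_div_le_one_div_of_le (by norm_num)
          have := Real.add_one_le_exp (1 : ℝ); linarith
        calc exp (-x) ≤ exp (((R + 1 : ℕ) : ℝ) * (-1)) := by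
              apply exp_le_exp.mpr; push_cast; linarith
          _ = exp (-1) ^ (R + 1) := Real.exp_nat_mul _ _
          _ ≤ _ := by gcongr
      have h2 : 0 ≤ ∑ m ∈ range R, if x ≤ (m : ℝ) + 1 then (1 / 2 : ℝ) ^ (m + 1) else 0 := by
        apply sum_nonneg; intro m _; split_ifs <;> positivity
      linarith

lemma tele (R : ℕ) : ∑ m ∈ range R, 1 / (((m : ℝ) + 1) * (m + 2)) = 1 - 1 / ((R : ℝ) + 1) := by
  induction R with
  | zero => simp
  | succ R ih => rw [sum_range_succ, ih]; push_cast; field_simp; ring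

lemma sqgeo (R : ℕ) : ∑ m ∈ range R, ((m : ℝ) + 1) ^ 2 * (1 / 2 : ℝ) ^ (m + 1) =
    6 - ((R : ℝ) ^ 2 + 4 * R + 6) * (1 / 2) ^ R := by
  induction R with
  | zero => simp
  | succ R ih => rw [sum_range_succ, ih]; push_cast; ring

open Classical in
lemma Hyp.sum_inv_le (h : Hyp Y T d J) {L : ℝ} (hL : 0 < L) (hLY : exp L ≤ Y / T ^ 2) (R : ℕ) :
    ∑ l ∈ (range (T + 1)).filter J, 1 / xx Y d l ≤
      2 * T / ((R : ℝ) + 1) + 1 + 2 * Th Y L T d J * R := by
  set S := (range (T + 1)).filter J with hS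
  have hTh := h.Th_nonneg hL
  have hT : (1 : ℝ) ≤ T := by exact_mod_cast h.hT
  have hcard : (S.card : ℝ) ≤ 2 * T := by
    have : S.card ≤ T + 1 := (card_filter_le _ _).trans (by simp)
    have : (S.card : ℝ) ≤ ((T + 1 : ℕ) : ℝ) := by exact_mod_cast this
    push_cast at this; linarith
  calc ∑ l ∈ S, 1 / xx Y d l
      ≤ ∑ l ∈ S, (1 / ((R : ℝ) + 1) + ∑ m ∈ range R,
          if xx Y d l ≤ (m : ℝ) + 2 then 1 / (((m : ℝ) + 1) * (m + 2)) else 0) := by
        apply sum_le_sum; intro l hl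
        obtain ⟨h1, h2⟩ := mem_filter.mp hl
        have := h.four_le (show l ≤ T by have := mem_range.mp h1; omega) h2
        exact inv_layer _ (by linarith) R
    _ = S.card * (1 / ((R : ℝ) + 1)) + ∑ m ∈ range R,
          ((S.filter (fun l => xx Y d l ≤ (m : ℝ) + 2)).card : ℝ) *
            (1 / (((m : ℝ) + 1) * (m + 2))) := by
        rw [sum_add_distrib, sum_const, nsmul_eq_mul, sum_comm]
        congr 1
        apply sum_congr rfl; intro m _
        rw [← sum_filter, sum_const, nsmul_eq_mul]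
    _ ≤ 2 * T * (1 / ((R : ℝ) + 1)) + ∑ m ∈ range R,
          (1 / (((m : ℝ) + 1) * (m + 2)) + 2 * Th Y L T d J) := by
        gcongr with m hm
        have h1 := h.card_le hL hLY (show (0 : ℝ) < (m : ℝ) + 2 by positivity)
        rw [hS, filter_filter]
        calc _ ≤ (1 + Th Y L T d J * ((m : ℝ) + 2) ^ 2) * (1 / (((m : ℝ) + 1) * (m + 2))) := by
              gcongr
          _ = 1 / (((m : ℝ) + 1) * (m + 2)) + Th Y L T d J * (((m : ℝ) + 2) / (m + 1)) := by
              field_simp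
          _ ≤ _ := by
              have : ((m : ℝ) + 2) / (m + 1) ≤ 2 := by
                rw [div_le_iff₀ (by positivity)]
                have : (0 : ℝ) ≤ m := Nat.cast_nonneg _
                linarith
              nlinarith
    _ ≤ _ := by
        rw [sum_add_distrib, tele, sum_const, card_range, nsmul_eq_mul]
        have : 0 ≤ 1 / ((R : ℝ) + 1) := by positivity
        have e : 2 * T * (1 / ((R : ℝ) + 1)) = 2 * T / ((R : ℝ) + 1) := by ring
        linarith

lemma Hyp.Th_le (h : Hyp Y T d J) {L : ℝ} (hL : 0 < L) (hLY : exp L ≤ Y / T ^ 2) :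
    Th Y L T d J ≤ 260 * T / L ^ 2 + 8 / L := by
  classical
  have h1 := h.sum_inv_le hL hLY ⌊L / 16⌋₊
  have hTh := h.Th_nonneg hL
  have hR1 : (⌊L / 16⌋₊ : ℝ) ≤ L / 16 := Nat.floor_le (by positivity)
  have hR2 : L / 16 ≤ (⌊L / 16⌋₊ : ℝ) + 1 := (Nat.lt_floor_add_one _).le
  have hT : (0 : ℝ) ≤ T := Nat.cast_nonneg _
  have h2 : 2 * T / ((⌊L / 16⌋₊ : ℝ) + 1) ≤ 2 * T / (L / 16) := by gcongr
  have h3 : 2 * Th Y L T d J * ⌊L / 16⌋₊ ≤ 2 * Th Y L T d J * (L / 16) := by gcongr
  have h4 : Th Y L T d J ≤ (4 / L) * (2 * T / (L / 16) + 1 + 2 * Th Y L T d J * (L / 16)) +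
      (T : ℝ) / (2 * L ^ 2) := by
    conv_lhs => unfold Th
    gcongr
    linarith
  have e : (4 / L) * (2 * T / (L / 16) + 1 + 2 * Th Y L T d J * (L / 16)) + (T : ℝ) / (2 * L ^ 2) =
      (128 + 1 / 2) * (T / L ^ 2) + 4 / L + Th Y L T d J / 2 := by field_simp; ring
  have e2 : 260 * T / L ^ 2 = 260 * (T / L ^ 2) := by ring
  have e3 : 8 / L = 2 * (4 / L) := by ring
  have : 0 ≤ (T : ℝ) / L ^ 2 := by positivity
  rw [e] at h4
  linarith

lemma Hyp.total_le (h : Hyp Y T d J) {L : ℝ} (hL : 0 < L) (hLY : exp L ≤ Y / T ^ 2) :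
    ∑ l ∈ range (T + 1), d l ≤ 2 * T ^ 2 + Y / 3 + Y / 32 + 384 * Y * Th Y L T d J := by
  classical
  set S := (range (T + 1)).filter J with hS
  have hTh := h.Th_nonneg hL
  have hY := h.hY
  have hT : (1 : ℝ) ≤ T := by exact_mod_cast h.hT
  rw [← sum_filter_add_sum_filter_not (range (T + 1)) J]
  have h1 : ∑ l ∈ (range (T + 1)).filter (fun l => ¬ J l), d l ≤ 2 * T ^ 2 := by
    calc _ ≤ ∑ l ∈ (range (T + 1)).filter (fun l => ¬ J l), (T : ℝ) := by
          apply sum_le_sum; intro l hl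
          obtain ⟨h1, h2⟩ := mem_filter.mp hl
          exact h.small l (by have := mem_range.mp h1; omega) h2
      _ ≤ ∑ l ∈ range (T + 1), (T : ℝ) :=
          sum_le_sum_of_subset_of_nonneg (filter_subset _ _) (fun _ _ _ => by positivity)
      _ = (T + 1) * T := by simp
      _ ≤ 2 * T ^ 2 := by nlinarith
  have h2 : ∑ l ∈ S, d l ≤ Y / 3 + Y / 32 + 384 * Y * Th Y L T d J := by
    by_cases hne : S.Nonempty
    · obtain ⟨l0, hl0, hmin⟩ := exists_min_image S (xx Y d) hne
      rw [← add_sum_erase S _ hl0]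
      have hmem : ∀ l ∈ S, l ≤ T ∧ J l := fun l hl => by
        obtain ⟨h1, h2⟩ := mem_filter.mp hl
        exact ⟨by have := mem_range.mp h1; omega, h2⟩
      have h3 := h.ub l0 (hmem l0 hl0).1 (hmem l0 hl0).2
      have hcard : ((S.erase l0).card : ℝ) ≤ 2 * T := by
        have : (S.erase l0).card ≤ T + 1 :=
          (card_erase_le).trans ((card_filter_le _ _).trans (by simp))
        have : ((S.erase l0).card : ℝ) ≤ ((T + 1 : ℕ) : ℝ) := by exact_mod_cast this
        push_cast at this; linarith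
      have h4 : ∑ l ∈ S.erase l0, exp (-xx Y d l) ≤ 1 / 2048 + 6 * Th Y L T d J := by
        calc ∑ l ∈ S.erase l0, exp (-xx Y d l)
            ≤ ∑ l ∈ S.erase l0, ((1 / 2 : ℝ) ^ (T + 12) + ∑ m ∈ range (T + 12),
              if xx Y d l ≤ (m : ℝ) + 1 then (1 / 2 : ℝ) ^ (m + 1) else 0) := by
              apply sum_le_sum; intro l hl
              have hl' := hmem l (mem_of_mem_erase hl)
              have := h.four_le hl'.1 hl'.2
              exact exp_layer _ (by linarith) _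
          _ = (S.erase l0).card * (1 / 2 : ℝ) ^ (T + 12) + ∑ m ∈ range (T + 12),
              (((S.erase l0).filter (fun l => xx Y d l ≤ (m : ℝ) + 1)).card : ℝ) *
                (1 / 2 : ℝ) ^ (m + 1) := by
              rw [sum_add_distrib, sum_const, nsmul_eq_mul, sum_comm]
              congr 1
              apply sum_congr rfl; intro m _
              rw [← sum_filter, sum_const, nsmul_eq_mul]
          _ ≤ 2 * T * (1 / 2 : ℝ) ^ (T + 12) + ∑ m ∈ range (T + 12),
              Th Y L T d J * (((m : ℝ) + 1) ^ 2 * (1 / 2 : ℝ) ^ (m + 1)) := by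
              refine add_le_add (by gcongr) (sum_le_sum fun m hm => ?_)
              rw [← mul_assoc]
              refine mul_le_mul_of_nonneg_right ?_ (by positivity)
              have h5 := h.card_le hL hLY (show (0 : ℝ) < (m : ℝ) + 1 by positivity)
              rw [← filter_filter, ← hS] at h5
              by_cases hx : xx Y d l0 ≤ (m : ℝ) + 1
              · rw [filter_erase, card_erase_of_mem (mem_filter.mpr ⟨hl0, hx⟩), Nat.cast_sub
                  (card_pos.mpr ⟨l0, mem_filter.mpr ⟨hl0, hx⟩⟩)]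
                push_cast; linarith
              · rw [filter_false_of_mem]
                · simp; positivity
                · intro l hl hx'
                  exact hx ((hmin l (mem_of_mem_erase hl)).trans hx')
          _ ≤ _ := by
              rw [← mul_sum, sqgeo]
              have h6 : (T : ℝ) * (1 / 2) ^ T ≤ 1 := by
                have : (T : ℝ) ≤ 2 ^ T := by exact_mod_cast Nat.lt_two_pow_self.le
                rw [one_div, inv_pow, ← div_eq_mul_inv, div_le_one (by positivity)]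
                exact this
              have h7 : 2 * T * (1 / 2 : ℝ) ^ (T + 12) = (T * (1 / 2) ^ T) / 2048 := by ring
              have h8 : 0 ≤ (((T + 12 : ℕ) : ℝ) ^ 2 + 4 * ((T + 12 : ℕ) : ℝ) + 6) *
                  (1 / 2 : ℝ) ^ (T + 12) := by positivity
              nlinarith
      have h5 : ∑ l ∈ S.erase l0, d l = 64 * Y * ∑ l ∈ S.erase l0, exp (-xx Y d l) := by
        rw [mul_sum]
        apply sum_congr rfl; intro l hl
        have hl' := hmem l (mem_of_mem_erase hl)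
        rw [h.exp_neg_xx hl'.1 hl'.2]; field_simp
      rw [h5]
      have h6 := mul_le_mul_of_nonneg_left h4 (show 0 ≤ 64 * Y by positivity)
      linarith
    · rw [not_nonempty_iff_eq_empty] at hne
      rw [hne, sum_empty]; positivity
  linarith

end Pool.Agent.MP_b5e119_nt.H44

end

-- part MP_b5e119_nt.H44.Main
section

namespace Pool.Agent.MP_b5e119_nt.H44

open Real Finset

/-- second argument of the gcd -/
def bb (N n : ℕ) : ℤ := (N : ℤ) - (-1 : ℤ) ^ n * ((N : ℤ) - (n : ℤ))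

lemma bb_even (N j : ℕ) (h : Even j) : bb N j = j := by
  unfold bb; rw [h.neg_one_pow]; ring

lemma bb_odd (N j : ℕ) (h : Odd j) : bb N j = 2 * N - j := by
  unfold bb; rw [h.neg_one_pow]; ring

/-- the step sizes -/
def dd (N : ℕ) (a : ℕ → ℤ) (l : ℕ) : ℕ := if 2 ≤ l then Int.gcd (a (l - 1)) (bb N l) else 0

section
variable {N : ℕ} {a : ℕ → ℤ} {g : ℕ}

lemma step_eq (hrec : ∀ n : ℕ, 2 ≤ n → a n = a (n - 1) - ((Int.gcd (a (n - 1)) (bb N n) : ℕ) : ℤ))
    (n : ℕ) (hn : 1 ≤ n) : a (n + 1) = a n - dd N a (n + 1) := by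
  have := hrec (n + 1) (by omega)
  unfold dd
  rw [if_pos (by omega)]
  exact this

lemma pos_of_lt (hN : 3 ≤ N) (h1 : a 1 = (N : ℤ) - 2)
    (hrec : ∀ n : ℕ, 2 ≤ n → a n = a (n - 1) - ((Int.gcd (a (n - 1)) (bb N n) : ℕ) : ℤ))
    (hg : IsLeast {n : ℕ | 2 ≤ n ∧ a n = 0} g) (n : ℕ) (hn : 1 ≤ n) (hng : n < g) : 0 < a n := by
  induction n, hn using Nat.le_induction with
  | base => omega
  | succ n hn ih =>
    have hp := ih (by omega)
    have h2 := hrec (n + 1) (by omega)
    rw [Nat.add_sub_cancel] at h2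
    have h3 : ((Int.gcd (a n) (bb N (n + 1)) : ℕ) : ℤ) ≤ a n :=
      Int.le_of_dvd hp (Int.gcd_dvd_left _ _)
    have h4 : a (n + 1) ≠ 0 := by
      intro h0
      have := hg.2 (show n + 1 ∈ {n : ℕ | 2 ≤ n ∧ a n = 0} from ⟨by omega, h0⟩)
      omega
    omega

lemma dd_pos (hN : 3 ≤ N) (h1 : a 1 = (N : ℤ) - 2)
    (hrec : ∀ n : ℕ, 2 ≤ n → a n = a (n - 1) - ((Int.gcd (a (n - 1)) (bb N n) : ℕ) : ℤ))
    (hg : IsLeast {n : ℕ | 2 ≤ n ∧ a n = 0} g) (l : ℕ) (hl : 2 ≤ l) (hlg : l ≤ g) :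
    1 ≤ dd N a l := by
  have hp := pos_of_lt hN h1 hrec hg (l - 1) (by omega) (by omega)
  unfold dd
  rw [if_pos hl]
  exact Int.gcd_pos_of_ne_zero_left _ hp.ne'

lemma sum_eq (hrec : ∀ n : ℕ, 2 ≤ n → a n = a (n - 1) - ((Int.gcd (a (n - 1)) (bb N n) : ℕ) : ℤ))
    (i : ℕ) (hi : 1 ≤ i) (j : ℕ) (hij : i ≤ j) :
    a j = a i - ∑ l ∈ Ioo i (j + 1), (dd N a l : ℤ) := by
  induction j, hij using Nat.le_induction with
  | base =>
    have : Ioo i (i + 1) = ∅ := by ext m; simp only [mem_Ioo]; simp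
    rw [this]; simp
  | succ j hij ih =>
    have : Ioo i (j + 1 + 1) = insert (j + 1) (Ioo i (j + 1)) := by
      ext m; simp only [mem_Ioo, mem_insert]; omega
    rw [this, sum_insert (by simp), step_eq hrec j (by omega), ih]; ring

lemma sum_ge (hN : 3 ≤ N) (h1 : a 1 = (N : ℤ) - 2)
    (hrec : ∀ n : ℕ, 2 ≤ n → a n = a (n - 1) - ((Int.gcd (a (n - 1)) (bb N n) : ℕ) : ℤ))
    (hg : IsLeast {n : ℕ | 2 ≤ n ∧ a n = 0} g) (i j : ℕ) (hi : 1 ≤ i) (hij : i ≤ j) (hj : j ≤ g) :
    (j : ℤ) - i ≤ ∑ l ∈ Ioo i (j + 1), (dd N a l : ℤ) := by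
  calc (j : ℤ) - i = ∑ l ∈ Ioo i (j + 1), (1 : ℤ) := by
        rw [sum_const, Nat.card_Ioo]; simp; omega
    _ ≤ _ := by
        apply sum_le_sum; intro l hl
        have := mem_Ioo.mp hl
        exact_mod_cast dd_pos hN h1 hrec hg l (by omega) (by omega)

lemma hyp (hN : 3 ≤ N) (h1 : a 1 = (N : ℤ) - 2)
    (hrec : ∀ n : ℕ, 2 ≤ n → a n = a (n - 1) - ((Int.gcd (a (n - 1)) (bb N n) : ℕ) : ℤ))
    (hg : IsLeast {n : ℕ | 2 ≤ n ∧ a n = 0} g) :
    Hyp (2 * N) g (fun l => (dd N a l : ℝ)) (fun l => Odd l ∧ g < dd N a l) := by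
  have hg2 : 2 ≤ g := hg.1.1
  have hub : ∀ n, 1 ≤ n → n ≤ g → a n ≤ N - 1 - n := fun n hn hng => by
    have e := sum_eq hrec 1 le_rfl n hn
    have := sum_ge hN h1 hrec hg 1 n le_rfl hn hng
    push_cast at this; omega
  have h2 : ∀ l, g < dd N a l → 2 ≤ l := fun l hl => by
    by_contra hh; unfold dd at hl; rw [if_neg hh] at hl; omega
  have hdv : ∀ l, 2 ≤ l → Odd l → (dd N a l : ℤ) ∣ a (l - 1) ∧ (dd N a l : ℤ) ∣ 2 * N - l := by
    intro l hl ho
    unfold dd
    rw [if_pos hl, ← bb_odd N l ho]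
    exact ⟨Int.gcd_dvd_left _ _, Int.gcd_dvd_right _ _⟩
  refine ⟨by positivity, by omega, fun l => by positivity, ?_, ?_, ?_, ?_⟩
  · intro l hl hJ
    rcases Nat.even_or_odd l with he | ho
    · have : dd N a l ≤ l := by
        unfold dd
        split_ifs with hh
        · rw [bb_even N l he]
          have : ((Int.gcd (a (l - 1)) (l : ℤ) : ℕ) : ℤ) ≤ l :=
            Int.le_of_dvd (by omega) (Int.gcd_dvd_right _ _)
          exact_mod_cast this
        · omega
      exact_mod_cast this.trans hl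
    · have : dd N a l ≤ g := by by_contra hh; exact hJ ⟨ho, by omega⟩
      exact_mod_cast this
  · intro l _ hJ; exact_mod_cast hJ.2
  · intro l hl hJ
    have hl2 := h2 l hJ.2
    obtain ⟨d1, s, hs⟩ := hdv l hl2 hJ.1
    have hp := pos_of_lt hN h1 hrec hg (l - 1) (by omega) (by omega)
    have hu := hub (l - 1) (by omega) (by omega)
    have hle := Int.le_of_dvd hp d1
    have hd0 : (0 : ℤ) < dd N a l := by have := hJ.2; omega
    have hl1 : ((l - 1 : ℕ) : ℤ) = l - 1 := by omega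
    have hs3 : 3 ≤ s := by
      by_contra hh
      have : (dd N a l : ℤ) * s ≤ dd N a l * 2 := by gcongr; omega
      omega
    have : (dd N a l : ℤ) * 3 ≤ 2 * N := by
      have : (dd N a l : ℤ) * 3 ≤ dd N a l * s := by gcongr
      omega
    have : (dd N a l : ℝ) * 3 ≤ 2 * N := by exact_mod_cast this
    linarith
  · intro i j hij hj hJi hJj
    have hi2 := h2 i hJi.2
    have hj2 := h2 j hJj.2
    obtain ⟨di1, di2⟩ := hdv i hi2 hJi.1
    obtain ⟨dj1, dj2⟩ := hdv j hj2 hJj.1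
    have hai : (dd N a i : ℤ) ∣ a i := by
      have := step_eq hrec (i - 1) (by omega)
      rw [show i - 1 + 1 = i by omega] at this
      rw [this]; exact dvd_sub di1 dvd_rfl
    have e := sum_eq hrec i (by omega) (j - 1) (by omega)
    have hge := sum_ge hN h1 hrec hg i (j - 1) (by omega) (by omega) (by omega)
    rw [show j - 1 + 1 = j by omega] at e hge
    set D := ∑ l ∈ Ioo i j, (dd N a l : ℤ) with hD
    have hdvd : (dd N a i : ℤ) * dd N a j ∣ a i * (2 * N - j) - (2 * N - i) * a (j - 1) :=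
      dvd_sub (mul_dvd_mul hai dj2) (mul_dvd_mul di2 dj1)
    have hW : a i * (2 * N - j) - (2 * N - i) * a (j - 1) = D * (2 * N - i) - a i * (j - i) := by
      rw [e]; ring
    have hij2 : i + 2 ≤ j := by
      obtain ⟨u, hu⟩ := hJi.1
      obtain ⟨v, hv⟩ := hJj.1
      omega
    have hu := hub i (by omega) (by omega)
    have hp := pos_of_lt hN h1 hrec hg i (by omega) (by omega)
    have hj1 : ((j - 1 : ℕ) : ℤ) = j - 1 := by omega
    rw [hj1] at hge
    have hji : (2 : ℤ) ≤ (j : ℤ) - i := by omega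
    have hWpos : 0 < D * (2 * N - i) - a i * (j - i) := by
      have h3 : (j : ℤ) - i ≤ 2 * D := by omega
      have h4 : 2 * a i < 2 * N - i := by omega
      have h5 : a i * (j - i) ≤ a i * (2 * D) := by gcongr
      have h6 : D * (2 * a i) < D * (2 * N - i) := by gcongr; omega
      nlinarith
    rw [hW] at hdvd
    have hle := Int.le_of_dvd hWpos hdvd
    have h7 : D * (2 * N - i) - a i * (j - i) ≤ 2 * N * D := by
      have : 0 ≤ a i * (j - i) := by positivity
      have : 0 ≤ D * i := by apply mul_nonneg <;> omega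
      nlinarith
    have h8 : (dd N a i : ℤ) * dd N a j ≤ 2 * N * ∑ l ∈ Ioo i j, (dd N a l : ℤ) := hle.trans h7
    exact_mod_cast h8

lemma total (h1 : a 1 = (N : ℤ) - 2)
    (hrec : ∀ n : ℕ, 2 ≤ n → a n = a (n - 1) - ((Int.gcd (a (n - 1)) (bb N n) : ℕ) : ℤ))
    (hg : IsLeast {n : ℕ | 2 ≤ n ∧ a n = 0} g) :
    ∑ l ∈ range (g + 1), (dd N a l : ℝ) = N - 2 := by
  have hg2 : 2 ≤ g := hg.1.1
  have e := sum_eq hrec 1 le_rfl g (by omega)
  rw [hg.1.2, h1] at e
  have e2 : ∑ l ∈ range (g + 1), (dd N a l : ℤ) = ∑ l ∈ Ioo 1 (g + 1), (dd N a l : ℤ) := by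
    symm
    apply sum_subset
    · intro m hm; simp only [mem_Ioo, mem_range] at hm ⊢; omega
    · intro m hm hm'
      simp only [mem_Ioo, mem_range] at hm hm'
      unfold dd; rw [if_neg (by omega)]; simp
  have e3 : ∑ l ∈ range (g + 1), (dd N a l : ℤ) = N - 2 := by rw [e2]; omega
  exact_mod_cast e3

theorem main (hN : 3 ≤ N) (h1 : a 1 = (N : ℤ) - 2)
    (hrec : ∀ n : ℕ, 2 ≤ n → a n = a (n - 1) - ((Int.gcd (a (n - 1)) (bb N n) : ℕ) : ℤ))
    (hg : IsLeast {n : ℕ | 2 ≤ n ∧ a n = 0} g) :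
    (1 / 10 ^ 11 : ℝ) * Real.log N ^ 2 ≤ g := by
  by_contra hlt
  push Not at hlt
  have H := hyp hN h1 hrec hg
  have htot := total h1 hrec hg
  have hg2 : (2 : ℝ) ≤ g := by exact_mod_cast hg.1.1
  have hN0 : (0 : ℝ) < N := by positivity
  set ℓ := Real.log N with hℓ
  have hℓ0 : 0 ≤ ℓ := Real.log_nonneg (by exact_mod_cast (by omega : 1 ≤ N))
  have hbig : 400000 ≤ ℓ := by
    by_contra hh
    push Not at hh
    nlinarith
  have hexp : exp ℓ = N := exp_log hN0
  have he2 : exp (ℓ / 2) * exp (ℓ / 2) = N := by rw [← exp_add, ← hexp]; congr 1; ring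
  have h4 : (ℓ / 8) ^ 4 ≤ exp (ℓ / 2) := by
    have := Real.add_one_le_exp (ℓ / 8)
    have e : exp (ℓ / 2) = exp (ℓ / 8) ^ 4 := by rw [← Real.exp_nat_mul]; congr 1; push_cast; ring
    rw [e]; gcongr; linarith
  have hgsq : (g : ℝ) ^ 2 ≤ exp (ℓ / 2) := by
    calc (g : ℝ) ^ 2 ≤ ((1 / 10 ^ 11 : ℝ) * ℓ ^ 2) ^ 2 := by gcongr
      _ = (1 / 10 ^ 22) * ℓ ^ 4 := by ring
      _ ≤ (1 / 4096) * ℓ ^ 4 := by gcongr; norm_num
      _ = (ℓ / 8) ^ 4 := by ring
      _ ≤ _ := h4
  have hE : 1000 ≤ exp (ℓ / 2) := by have := Real.add_one_le_exp (ℓ / 2); linarith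
  have hLY : exp (ℓ / 2) ≤ 2 * (N : ℝ) / (g : ℝ) ^ 2 := by
    rw [le_div_iff₀ (by positivity)]
    calc exp (ℓ / 2) * (g : ℝ) ^ 2 ≤ exp (ℓ / 2) * exp (ℓ / 2) := by gcongr
      _ ≤ 2 * N := by linarith
  have hL : 0 < ℓ / 2 := by linarith
  have t1 := H.total_le hL hLY
  have t2 := H.Th_le hL hLY
  rw [htot] at t1
  set θ := Th (2 * N) (ℓ / 2) g (fun l => (dd N a l : ℝ)) (fun l => Odd l ∧ g < dd N a l)
  have t3 : 260 * (g : ℝ) / (ℓ / 2) ^ 2 ≤ 1 / 10 ^ 7 := by
    rw [div_le_iff₀ (by positivity)]; nlinarith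
  have t4 : 8 / (ℓ / 2) ≤ 1 / 25000 := by
    rw [div_le_iff₀ hL]; linarith
  have t5 : θ ≤ 1 / 20000 := by norm_num at t3 t4 t2 ⊢; linarith
  have t6 : 384 * (2 * (N : ℝ)) * θ ≤ 384 * (2 * N) * (1 / 20000) := by gcongr
  have t7 : 1000 * (g : ℝ) ^ 2 ≤ N := by nlinarith
  have t8 : 1000000 ≤ (N : ℝ) := by nlinarith
  linarith

end

end Pool.Agent.MP_b5e119_nt.H44

end
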